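import Pool.Agent.H979.FR.Stm

/-!
# Project FR: the isoperimetric inequality from GEO and GROW
-/

set_option autoImplicit false

namespace Pool.Agent.H195

open Pool.Agent.H979.FR

theorem fr_iso (h1 : S_GEO) (h2 : S_GROW) : S_ISO := by
  intro V _ G _ hconn htrans ham o hlin r A hA
  -- the radii
  obtain ⟨R, hR0, hRs⟩ : ∃ R : ℕ → ℕ, R 0 = 0 ∧ ∀ k, R (k + 1) = 3 * R k + 1 :=
    ⟨fun k => Nat.rec 0 (fun _ x => 3 * x + 1) k, rfl, fun _ => rfl⟩
  have hR : ∀ k, 2 * R k + 1 = 3 ^ k := by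
    intro k
    induction k with
    | zero => rw [hR0]; rfl
    | succ k ih => rw [hRs, pow_succ, ← ih]; ring
  have hball : ball G o 0 = {o} := by
    ext v
    rw [Set.mem_singleton_iff]
    constructor
    · intro h
      have h0 : G.dist o v = 0 := Nat.le_zero.1 h
      exact ((hconn.dist_eq_zero_iff).1 h0).symm
    · rintro rfl
      show G.dist v v ≤ 0
      rw [SimpleGraph.dist_self]
  have hg : ∀ k, 4 ^ k ≤ (ball G o (R k)).ncard := by
    intro k
    induction k with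
    | zero => rw [hR0, hball, Set.ncard_singleton, pow_zero]
    | succ k ih =>
      rw [hRs, pow_succ]
      have := h2 V G hconn htrans o hlin (R k)
      omega
  have hA1 : 1 ≤ A.card := le_trans Nat.one_le_two_pow hA
  -- the scale
  have hex : ∃ k : ℕ, 2 * A.card ≤ 4 ^ k := by
    refine ⟨2 * A.card, ?_⟩
    exact (Nat.lt_pow_self (by norm_num)).le
  obtain ⟨k, hk, hmin⟩ : ∃ k, 2 * A.card ≤ 4 ^ k ∧ ∀ j < k, ¬ 2 * A.card ≤ 4 ^ j :=
    ⟨Nat.find hex, Nat.find_spec hex, fun j hj => Nat.find_min hex hj⟩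
  have hk1 : 1 ≤ k := by
    by_contra hc
    have : k = 0 := by omega
    rw [this, pow_zero] at hk
    omega
  obtain ⟨j, rfl⟩ : ∃ j, k = j + 1 := ⟨k - 1, by omega⟩
  have hj : 4 ^ j < 2 * A.card := by
    have := hmin j (by omega)
    omega
  have hgeo := h1 V G hconn htrans ham o A (R (j + 1)) (hk.trans (hg (j + 1)))
  obtain ⟨b, hb⟩ : ∃ b, b = (outerBd G A).ncard := ⟨_, rfl⟩
  rw [← hb] at hgeo ⊢
  have h3 : A.card ≤ 3 ^ (j + 1) * b := by
    rw [← hR (j + 1)]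
    calc A.card ≤ 2 * R (j + 1) * b := hgeo
      _ ≤ (2 * R (j + 1) + 1) * b := Nat.mul_le_mul_right _ (by omega)
  have h4 : r + 1 ≤ 2 * (j + 1) := by
    have h5 : 2 ^ (r + 1) ≤ 2 ^ (2 * (j + 1)) := by
      rw [pow_mul, pow_succ]
      norm_num
      omega
    exact (Nat.pow_le_pow_iff_right (by norm_num)).1 h5
  have h3' : (A.card : ℝ) ≤ 3 ^ (j + 1) * (b : ℝ) := by exact_mod_cast h3
  have hj' : (4 : ℝ) ^ j < 2 * (A.card : ℝ) := by exact_mod_cast hj
  have h5 : ((11 : ℝ) / 10) ^ r ≤ (4 / 3) ^ (j + 1) := by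
    calc ((11 : ℝ) / 10) ^ r ≤ (11 / 10) ^ (2 * (j + 1)) :=
          pow_le_pow_right₀ (by norm_num) (by omega)
      _ = ((11 / 10) ^ 2) ^ (j + 1) := by rw [pow_mul]
      _ ≤ (4 / 3) ^ (j + 1) := pow_le_pow_left₀ (by norm_num) (by norm_num) _
  have h6 : ((4 : ℝ) / 3) ^ (j + 1) / 8 ≤ b := by
    rw [div_pow, div_div, div_le_iff₀ (by positivity), pow_succ (4 : ℝ)]
    nlinarith
  linarith

end Pool.Agent.H195
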