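import Mathlib
import Pool.Agent.H979.GW.StmA

set_option autoImplicit false
set_option linter.unusedSectionVars false
set_option linter.unusedVariables false

open MeasureTheory ProbabilityTheory Filter Topology Set
open scoped ENNReal NNReal

/-!
# Task TAIL: the exponential lower tail of the environment sums
-/

namespace Pool.Agent.H195

open Pool.Agent.H979.GW

variable {Q : Type} [Fintype Q] [DecidableEq Q]

theorem sum_Lev_succ_gen {Λ : Type} [DecidableEq Λ] {M : Type*} [AddCommMonoid M]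
    (ch : List Λ → Finset Λ) (k : ℕ) (f : List Λ → M) :
    ∑ v ∈ Lev ch (k + 1), f v = ∑ v ∈ Lev ch k, ∑ c ∈ ch v, f (c :: v) := by
  show ∑ v ∈ (Lev ch k).biUnion (fun v => (ch v).image fun c => c :: v), f v = _
  rw [Finset.sum_biUnion]
  · refine Finset.sum_congr rfl fun v _ => ?_
    rw [Finset.sum_image]
    intro a _ b _ h
    exact (List.cons.inj h).1
  · intro u _ v _ huv
    simp only [Function.onFun]
    rw [Finset.disjoint_left]
    intro x hx hy
    simp only [Finset.mem_image] at hx hy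
    obtain ⟨c, _, rfl⟩ := hx
    obtain ⟨c', _, h⟩ := hy
    exact huv (List.cons.inj h).2.symm

theorem sh_sh (c : Q × ℕ) (v : Vx Q) (ω : Env Q) : sh [c] (sh v ω) = sh (c :: v) ω := by
  funext u
  simp [sh]

theorem sh_nil_apply (v : Vx Q) (ω : Env Q) : sh v ω [] = ω v := by
  simp [sh]

/-- the exponent of the path to `v` -/
noncomputable def Yv (ρ : ℝ) (e : Q → ℝ) (a : Q) (ω : Env Q) (v : Vx Q) : ℝ :=
  (ρ - 1) * Sf (Wv ρ e a ω) v - ρ * Wv ρ e a ω v + ρ * Wv ρ e a ω []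

/-- the recursion holds at all vertices -/
def GoodRec (ρ : ℝ) (e : Q → ℝ) (a : Q) (ω : Env Q) : Prop :=
  ∀ v : Vx Q, ρ * Wv ρ e a ω v = ∑ c ∈ cht ω v, Wv ρ e a ω (c :: v)

theorem ae_goodRec (q : Q → Measure (Q → ℕ)) [∀ a, IsProbabilityMeasure (q a)] {ρ : ℝ}
    {e m : Q → ℝ} (h1 : S_SH q) (h6 : S_W q ρ e m) (a : Q) :
    ∀ᵐ ω ∂(law q a), GoodRec ρ e a ω := by
  unfold GoodRec
  rw [ae_all_iff]
  intro v
  have h := h6.2.2.2.2.2.1 (ty a v)
  rw [← (h1 a v).2] at h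
  have h' := ae_of_ae_map (h1 a v).1.aemeasurable h
  filter_upwards [h'] with ω hω
  have h2 : ρ * Wv ρ e a ω v = ∑ c ∈ chd (sh v ω []), WW ρ e c.1 (sh [c] (sh v ω)) := hω
  rw [h2, sh_nil_apply]
  refine Finset.sum_congr rfl fun c _ => ?_
  rw [sh_sh]
  rfl

theorem Bc_eq {ρ : ℝ} {e : Q → ℝ} {a : Q} {ω : Env Q} (hg : GoodRec ρ e a ω) (v : Vx Q)
    {c : Q × ℕ} (hc : c ∈ cht ω v) :
    Bc ρ e (sh v ω) c = ρ * Wv ρ e a ω v - Wv ρ e a ω (c :: v) := by
  have h1 : Bc ρ e (sh v ω) c = ∑ d ∈ (cht ω v).erase c, Wv ρ e a ω (d :: v) := by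
    unfold Bc
    rw [sh_nil_apply]
    refine Finset.sum_congr rfl fun d _ => ?_
    rw [sh_sh]
    rfl
  rw [h1, hg v, ← Finset.add_sum_erase _ _ hc]
  ring

theorem Yv_cons (ρ : ℝ) (e : Q → ℝ) (a : Q) (ω : Env Q) (v : Vx Q) (c : Q × ℕ) :
    Yv ρ e a ω (c :: v) = Yv ρ e a ω v + (ρ * Wv ρ e a ω v - Wv ρ e a ω (c :: v)) := by
  unfold Yv
  simp only [Sf]
  ring

theorem Yv_nil (ρ : ℝ) (e : Q → ℝ) (a : Q) (ω : Env Q) : Yv ρ e a ω [] = 0 := by
  unfold Yv
  simp only [Sf]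
  ring

theorem Tth_iter {ρ : ℝ} {e : Q → ℝ} {a : Q} {ω : Env Q} (hg : GoodRec ρ e a ω) (θ : ℝ) (r : ℕ) :
    ∀ f : Q → Env Q → ℝ≥0∞, (Tth ρ e θ)^[r] f a ω =
      ∑ v ∈ Lev (cht ω) r, ENNReal.ofReal (Real.exp (-(θ * Yv ρ e a ω v))) *
        f (ty a v) (sh v ω) := by
  induction r with
  | zero =>
    intro f
    have h0 : sh ([] : Vx Q) ω = ω := by
      funext u; simp [sh]
    simp [Lev, Yv_nil, h0, ty]
  | succ r ih =>
    intro f
    rw [Function.iterate_succ_apply, ih, sum_Lev_succ_gen]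
    refine Finset.sum_congr rfl fun v _ => ?_
    unfold Tth
    rw [sh_nil_apply, Finset.mul_sum]
    refine Finset.sum_congr rfl fun c hc => ?_
    rw [Bc_eq hg v hc, Yv_cons, sh_sh, ← mul_assoc,
      ← ENNReal.ofReal_mul (Real.exp_nonneg _), ← Real.exp_add]
    have h3 : -(θ * Yv ρ e a ω v) + -(θ * (ρ * Wv ρ e a ω v - Wv ρ e a ω (c :: v))) =
        -(θ * (Yv ρ e a ω v + (ρ * Wv ρ e a ω v - Wv ρ e a ω (c :: v)))) := by ring
    rw [h3]
    rfl

/-- the weight of a vertex -/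
noncomputable def f0 (ρ : ℝ) (_b : Q) (ω : Env Q) : ℝ≥0∞ :=
  ENNReal.ofReal (ρ + ((cht ω []).card : ℝ))

theorem f0_meas (ρ : ℝ) (b : Q) : Measurable (f0 (Q := Q) ρ b) := by
  unfold f0 cht
  have h : ∀ ω : Env Q, ((chd (ω [])).card : ℝ) = ∑ b, (ω [] b : ℝ) := fun ω => by
    rw [card_chd]; push_cast; rfl
  simp only [h]
  refine ENNReal.measurable_ofReal.comp (measurable_const.add ?_)
  refine Finset.measurable_sum _ fun b _ => ?_
  have h2 : Measurable fun ω : Env Q => ω [] b := (measurable_pi_apply b).comp (measurable_pi_apply [])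
  exact (measurable_from_top (f := fun n : ℕ => (n : ℝ))).comp h2

theorem f0_fin (q : Q → Measure (Q → ℕ)) [∀ a, IsProbabilityMeasure (q a)] {ρ : ℝ} (hρ : 0 ≤ ρ)
    (h2 : S_M1 q) (a : Q) : ∫⁻ ω, f0 ρ a ω ∂(law q a) ≠ ∞ := by
  have h := h2.1 (fun _ _ => 1) (fun _ => measurable_const) a
  have h3 : ∀ ω : Env Q, f0 ρ a ω = ENNReal.ofReal ρ + ∑ c ∈ chd (ω []), (1 : ℝ≥0∞) := fun ω => by
    unfold f0 cht
    rw [ENNReal.ofReal_add hρ (Nat.cast_nonneg _)]
    simp
  simp_rw [h3]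
  rw [lintegral_add_left measurable_const]
  rw [h]
  simp only [lintegral_const, measure_univ, mul_one]
  refine ENNReal.add_ne_top.2 ⟨ENNReal.ofReal_ne_top, ?_⟩
  exact ENNReal.sum_ne_top.2 fun b _ => ENNReal.ofReal_ne_top

theorem pow_swap (x y K g : ℝ) (n : ℕ) : x ^ n * (K * y ^ n * g) = K * g * (x * y) ^ n := by
  rw [mul_pow]; ring

theorem gw_tail {Q : Type} [Fintype Q] [DecidableEq Q] (q : Q → Measure (Q → ℕ))
    [∀ a, IsProbabilityMeasure (q a)] {ρ : ℝ} {e m : Q → ℝ} {C r : ℝ} (hy : Hyp q ρ e m C r)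
    (h1 : S_SH q) (h2 : S_M1 q) (h3 : S_M3 q ρ e) (h4 : S_PERT Q) (h5 : S_BETA q ρ e m)
    (h6 : S_W q ρ e m) (h7 : S_LEV Q) : S_TAIL q ρ e m := by
  classical
  intro ε hε
  have hρ : 0 < ρ := lt_trans one_pos hy.rho
  set β : ℝ := (ρ - 1) * etaA q ρ e m with hβ
  set δ : ℝ := ε / 4 with hδ
  have hδ0 : 0 < δ := by rw [hδ]; linarith
  -- the choice of `θ'`
  obtain ⟨θ', hθ'1, hθ'0⟩ : ∃ θ' : ℝ, β - δ < ρ⁻¹ * ∑ a, m a * ∑ b,
      (mA q a b - Kth q ρ e θ' a b) / θ' * e b ∧ 0 < θ' := by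
    have h := h5.2.eventually (lt_mem_nhds (show β - δ < β by linarith))
    exact (h.and self_mem_nhdsWithin).exists
  set D : Matrix Q Q ℝ := fun a b => (mA q a b - Kth q ρ e θ' a b) / θ' with hD
  have hA0 : ∀ a b, 0 ≤ mA q a b := fun a b => integral_nonneg fun x => Nat.cast_nonneg _
  have hD0 : ∀ a b, 0 ≤ D a b := fun a b => (h5.1 a b θ' θ' hθ'0 le_rfl).1
  obtain ⟨θ₀, hθ₀, hP⟩ := h4 (mA q) D ρ e m C r hy.pf hρ hA0 hD0 δ hδ0
  set θ : ℝ := min θ' θ₀ with hθ
  have hθ0 : 0 < θ := lt_min hθ'0 hθ₀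
  obtain ⟨g, hg1, hg2, hg3⟩ := hP θ hθ0 (min_le_right _ _)
  set β' : ℝ := ρ⁻¹ * (∑ a, m a * ∑ b, D a b * e b) with hβ'
  have hβ'1 : β - δ < β' := hθ'1
  set lam : ℝ := ρ * (1 - θ * (β' - δ)) with hlam
  have hepos := hy.pf.e_pos
  have hgpos : ∀ a, 0 < g a := fun a => lt_of_lt_of_le (half_pos (hepos a)) (hg1 a)
  have hK0 : ∀ a b, 0 ≤ Kth q ρ e θ a b := fun a b => by
    unfold Kth
    refine integral_nonneg fun ω => Finset.sum_nonneg fun c _ => ?_
    split_ifs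
    · exact Real.exp_nonneg _
    · exact le_rfl
  have hKD : ∀ a b, Kth q ρ e θ a b ≤ mA q a b - θ * D a b := fun a b => by
    have h := (h5.1 a b θ θ' hθ0 (min_le_left _ _)).2
    have h' : D a b * θ ≤ mA q a b - Kth q ρ e θ a b := (le_div_iff₀ hθ0).1 h
    linarith
  have hKg : ∀ a, ∑ b, Kth q ρ e θ a b * g b ≤ lam * g a := fun a =>
    le_trans (Finset.sum_le_sum fun b _ => mul_le_mul_of_nonneg_right (hKD a b) (hgpos b).le)
      (hg3 a)
  -- the iterates
  have hmeas : ∀ (n : ℕ) (a : Q), Measurable ((Tth ρ e θ)^[n] (f0 ρ) a) := by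
    intro n
    induction n with
    | zero => intro a; exact f0_meas ρ a
    | succ n ih =>
      intro a
      rw [Function.iterate_succ_apply']
      exact (h3 θ hθ0.le _ ih).1 a
  set M : Q → ℝ := fun a => (∫⁻ ω, f0 ρ a ω ∂(law q a)).toReal with hM
  have hM0 : ∀ a, 0 ≤ M a := fun a => ENNReal.toReal_nonneg
  set K0 : ℝ := ∑ a, M a / (e a / 2) with hK0def
  have hK00 : 0 ≤ K0 := Finset.sum_nonneg fun a _ => div_nonneg (hM0 a) (half_pos (hepos a)).le
  have hI : ∀ (n : ℕ) (a : Q), ∫⁻ ω, (Tth ρ e θ)^[n] (f0 ρ) a ω ∂(law q a) ≤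
      ENNReal.ofReal (K0 * lam ^ n * g a) := by
    intro n
    induction n with
    | zero =>
      intro a
      rw [Function.iterate_zero, id, pow_zero, mul_one]
      rw [← ENNReal.ofReal_toReal (f0_fin q hρ.le h2 a)]
      refine ENNReal.ofReal_le_ofReal ?_
      have h8 : M a / (e a / 2) ≤ K0 :=
        Finset.single_le_sum (f := fun a => M a / (e a / 2))
          (fun a _ => div_nonneg (hM0 a) (half_pos (hepos a)).le) (Finset.mem_univ a)
      calc M a = M a / (e a / 2) * (e a / 2) := (div_mul_cancel₀ _ (half_pos (hepos a)).ne').symm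
        _ ≤ K0 * g a := mul_le_mul h8 (hg1 a) (half_pos (hepos a)).le hK00
    | succ n ih =>
      intro a
      have hl0 : 0 ≤ lam := by
        have h9 : 0 ≤ lam * g a := le_trans (Finset.sum_nonneg fun b _ =>
          mul_nonneg (hK0 a b) (hgpos b).le) (hKg a)
        exact nonneg_of_mul_nonneg_left h9 (hgpos a)
      rw [Function.iterate_succ_apply', (h3 θ hθ0.le _ (hmeas n)).2 a]
      calc ∑ b, ENNReal.ofReal (Kth q ρ e θ a b) * ∫⁻ ω, (Tth ρ e θ)^[n] (f0 ρ) b ω ∂(law q b)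
          ≤ ∑ b, ENNReal.ofReal (Kth q ρ e θ a b) * ENNReal.ofReal (K0 * lam ^ n * g b) :=
            Finset.sum_le_sum fun b _ => mul_le_mul_right (ih b) _
        _ = ENNReal.ofReal (∑ b, Kth q ρ e θ a b * (K0 * lam ^ n * g b)) := by
            rw [ENNReal.ofReal_sum_of_nonneg]
            · exact Finset.sum_congr rfl fun b _ => (ENNReal.ofReal_mul (hK0 a b)).symm
            · intro b _
              exact mul_nonneg (hK0 a b) (mul_nonneg (mul_nonneg hK00 (pow_nonneg hl0 n))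
                (hgpos b).le)
        _ ≤ ENNReal.ofReal (K0 * lam ^ (n + 1) * g a) := by
            refine ENNReal.ofReal_le_ofReal ?_
            have h10 : ∑ b, Kth q ρ e θ a b * (K0 * lam ^ n * g b) =
                K0 * lam ^ n * ∑ b, Kth q ρ e θ a b * g b := by
              rw [Finset.mul_sum]
              exact Finset.sum_congr rfl fun b _ => by ring
            rw [h10, pow_succ]
            calc K0 * lam ^ n * ∑ b, Kth q ρ e θ a b * g b ≤ K0 * lam ^ n * (lam * g a) :=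
                  mul_le_mul_of_nonneg_left (hKg a) (mul_nonneg hK00 (pow_nonneg hl0 n))
              _ = K0 * (lam ^ n * lam) * g a := by ring
  -- conclusion
  refine ⟨K0 * ∑ a, 2 * e a, θ * (ε / 2), mul_nonneg hK00 (Finset.sum_nonneg fun a _ =>
    (mul_pos two_pos (hepos a)).le), mul_pos hθ0 (half_pos hε), ?_⟩
  intro n a
  have hl0 : 0 ≤ lam := by
    have h9 : 0 ≤ lam * g a := le_trans (Finset.sum_nonneg fun b _ =>
      mul_nonneg (hK0 a b) (hgpos b).le) (hKg a)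
    exact nonneg_of_mul_nonneg_left h9 (hgpos a)
  have hstep : ∫⁻ ω, ENNReal.ofReal (∑ v ∈ Lev (cht ω) n, (ρ + (cht ω v).card) *
      (if (ρ - 1) * Sf (Wv ρ e a ω) v - ρ * Wv ρ e a ω v + ρ * Wv ρ e a ω [] <
        (β - ε) * n then 1 else 0)) ∂(law q a) ≤
      ∫⁻ ω, ENNReal.ofReal (Real.exp (θ * ((β - ε) * n))) *
        (Tth ρ e θ)^[n] (f0 ρ) a ω ∂(law q a) := by
    refine lintegral_mono_ae ?_
    filter_upwards [ae_goodRec q h1 h6 a] with ω hω
    rw [Tth_iter hω θ n (f0 ρ), Finset.mul_sum, ENNReal.ofReal_sum_of_nonneg]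
    · refine Finset.sum_le_sum fun v _ => ?_
      have h11 : f0 ρ (ty a v) (sh v ω) = ENNReal.ofReal (ρ + ((cht ω v).card : ℝ)) := by
        unfold f0 cht
        rw [sh_nil_apply]
      rw [h11, ← ENNReal.ofReal_mul (Real.exp_nonneg _), ← ENNReal.ofReal_mul (Real.exp_nonneg _)]
      refine ENNReal.ofReal_le_ofReal ?_
      have h12 : (0 : ℝ) ≤ ρ + ((cht ω v).card : ℝ) := add_nonneg hρ.le (Nat.cast_nonneg _)
      rw [← mul_assoc, ← Real.exp_add]
      rw [mul_comm]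
      refine mul_le_mul_of_nonneg_right ?_ h12
      split_ifs with hlt
      · have h13 : Yv ρ e a ω v < (β - ε) * n := hlt
        refine Real.one_le_exp ?_
        have := mul_lt_mul_of_pos_left h13 hθ0
        linarith
      · exact Real.exp_nonneg _
    · intro v _
      refine mul_nonneg (add_nonneg hρ.le (Nat.cast_nonneg _)) ?_
      split_ifs
      · exact zero_le_one
      · exact le_rfl
  refine hstep.trans ?_
  rw [lintegral_const_mul _ (hmeas n a)]
  refine (mul_le_mul_right (hI n a) _).trans ?_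
  rw [← ENNReal.ofReal_mul (Real.exp_nonneg _)]
  refine ENNReal.ofReal_le_ofReal ?_
  have h14 : lam ≤ ρ * Real.exp (-(θ * (β' - δ))) := by
    rw [hlam]
    refine mul_le_mul_of_nonneg_left ?_ hρ.le
    have := Real.add_one_le_exp (-(θ * (β' - δ)))
    linarith
  have h15 : g a ≤ ∑ a, 2 * e a := le_trans (hg2 a)
    (Finset.single_le_sum (f := fun a => 2 * e a) (fun a _ => (mul_pos two_pos (hepos a)).le)
      (Finset.mem_univ a))
  have h16 : Real.exp (θ * ((β - ε) * n)) = Real.exp (θ * (β - ε)) ^ n := by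
    rw [← Real.exp_nat_mul]
    congr 1
    ring
  have h17 : Real.exp (θ * (β - ε)) * lam ≤ ρ * Real.exp (-(θ * (ε / 2))) := by
    calc Real.exp (θ * (β - ε)) * lam
        ≤ Real.exp (θ * (β - ε)) * (ρ * Real.exp (-(θ * (β' - δ)))) :=
          mul_le_mul_of_nonneg_left h14 (Real.exp_nonneg _)
      _ = ρ * Real.exp (θ * (β - ε) + -(θ * (β' - δ))) := by rw [Real.exp_add]; ring
      _ ≤ ρ * Real.exp (-(θ * (ε / 2))) := by
          refine mul_le_mul_of_nonneg_left (Real.exp_le_exp.2 ?_) hρ.le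
          have h18 : (β - ε) - (β' - δ) ≤ -(ε / 2) := by
            rw [hδ]; rw [hδ] at hβ'1; linarith
          have h19 := mul_le_mul_of_nonneg_left h18 hθ0.le
          linarith
  rw [h16]
  calc Real.exp (θ * (β - ε)) ^ n * (K0 * lam ^ n * g a)
      = K0 * g a * (Real.exp (θ * (β - ε)) * lam) ^ n := by
        exact pow_swap _ _ _ _ n
    _ ≤ K0 * (∑ a, 2 * e a) * (ρ * Real.exp (-(θ * (ε / 2)))) ^ n := by
        refine mul_le_mul (mul_le_mul_of_nonneg_left h15 hK00)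
          (pow_le_pow_left₀ (mul_nonneg (Real.exp_nonneg _) hl0) h17 n)
          (pow_nonneg (mul_nonneg (Real.exp_nonneg _) hl0) n)
          (mul_nonneg hK00 (Finset.sum_nonneg fun a _ => (mul_pos two_pos (hepos a)).le))

end Pool.Agent.H195
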