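import Pool.Agent.H558.PP.TStm

set_option autoImplicit false

/-!
# Positive proportion of odd values: the step of the recurrence (S_T3)
-/

namespace Pool.Agent.H195.PPT3

open Finset Pool.Agent.H558.PP Pool.Agent.R836.PP Pool.Agent.H558.KK
open Pool.Agent.K7.H72.MT hiding W few dis DD dis_stable dis_vary DD_stable DD_sum DD_block few_bad
  dis_le DD_le base count

theorem mod_div (p i B : ℕ) : p % 2 ^ (i + B) / 2 ^ i = p / 2 ^ i % 2 ^ B := by
  rw [pow_add]; exact Nat.mod_mul_right_div_self _ _ _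

theorem mod_mod (p i B : ℕ) : p % 2 ^ (i + B) % 2 ^ i = p % 2 ^ i :=
  Nat.mod_mod_of_dvd _ (pow_dvd_pow 2 (Nat.le_add_right i B))

open scoped Classical in
theorem XX_le (hN1 : S_N1) (i L B T T' : ℕ) (U : S) :
    XX (i + L) T (i + B) T' U ≤
      ∑ q ∈ range (2 ^ i) ×ˢ range (2 ^ i), XX L T B T' (node P2 i q.2 q.1 U) := by
  unfold XX
  rw [Finset.card_eq_sum_card_fiberwise (f := fun p : ℕ × ℕ => (p.1 % 2 ^ i, p.2 % 2 ^ i))
    (t := range (2 ^ i) ×ˢ range (2 ^ i))]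
  · apply Finset.sum_le_sum
    intro q _
    apply Finset.card_le_card_of_injOn (fun p : ℕ × ℕ => (p.1 / 2 ^ i, p.2 / 2 ^ i))
    · intro p hp
      rw [Finset.mem_coe, Finset.mem_filter, Finset.mem_filter, Finset.mem_product, Finset.mem_range,
        Finset.mem_range] at hp
      obtain ⟨⟨⟨hp1, hp2⟩, hg1, hg2⟩, hq⟩ := hp
      have hq1 : p.1 % 2 ^ i = q.1 := congrArg Prod.fst hq
      have hq2 : p.2 % 2 ^ i = q.2 := congrArg Prod.snd hq
      rw [Finset.mem_coe, Finset.mem_filter, Finset.mem_product, Finset.mem_range,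
        Finset.mem_range]
      rw [pow_add] at hp1 hp2
      refine ⟨⟨Nat.div_lt_of_lt_mul hp1, Nat.div_lt_of_lt_mul hp2⟩, ?_, ?_⟩
      · rw [(hN1 P2 i L p.2 p.1 U).1, hq1, hq2] at hg1
        exact hg1
      · rw [(hN1 P2 i B (p.2 % 2 ^ (i + B)) (p.1 % 2 ^ (i + B)) U).1, mod_div, mod_div, mod_mod,
          mod_mod, hq1, hq2] at hg2
        exact hg2
    · intro p hp p' hp' hpp
      rw [Finset.mem_coe, Finset.mem_filter] at hp hp'
      have h1 : p.1 % 2 ^ i = p'.1 % 2 ^ i := congrArg Prod.fst (hp.2.trans hp'.2.symm)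
      have h2 : p.2 % 2 ^ i = p'.2 % 2 ^ i := congrArg Prod.snd (hp.2.trans hp'.2.symm)
      have h3 : p.1 / 2 ^ i = p'.1 / 2 ^ i := congrArg Prod.fst hpp
      have h4 : p.2 / 2 ^ i = p'.2 / 2 ^ i := congrArg Prod.snd hpp
      apply Prod.ext
      · rw [← Nat.div_add_mod p.1 (2 ^ i), ← Nat.div_add_mod p'.1 (2 ^ i), h1, h3]
      · rw [← Nat.div_add_mod p.2 (2 ^ i), ← Nat.div_add_mod p'.2 (2 ^ i), h2, h4]
  · intro p _
    rw [Finset.mem_coe, Finset.mem_product, Finset.mem_range, Finset.mem_range]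
    exact ⟨Nat.mod_lt _ (by positivity), Nat.mod_lt _ (by positivity)⟩

/-- T3 -/
theorem t3 (h0 : S_T0) (h1 : S_T1) (h2 : S_T2) (hN1 : S_N1) : S_T3 := by
  obtain ⟨L0', hL0', H⟩ := h2
  refine ⟨max 6 L0', le_max_left _ _, ?_⟩
  intro L hL
  have hL6 : 6 ≤ L := (le_max_left _ _).trans hL
  obtain ⟨w, J, hw, hE, hJ, hsum⟩ := H L ((le_max_right _ _).trans hL)
  refine ⟨J * (2 * w), hJ, ?_⟩
  set E : ℕ := 4 * L ^ 3 * 2 ^ (Nat.log 2 L) ^ 3 with hEd
  have hE1 : 1 ≤ E := by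
    rw [hEd]
    have : 0 < L := by omega
    exact Nat.succ_le_of_lt (by positivity)
  have hP : ∀ l, 2 * w ≤ l → l ≤ L → P1 l w (128 * lam w) E := by
    intro l hl1 hl2
    apply h0 l w E hw hl1 hE1
    refine le_trans ?_ hE
    exact Nat.mul_le_mul_left _ (by omega)
  have hR : 1 ≤ 128 * lam w := by
    have := lam_pos w
    omega
  have key := h1 L w (128 * lam w) E J (by omega) (by omega) hR hE1 hP
  intro i U v
  have h3 : (XX (i + L) (v + 4 * 8 ^ L) (i + J * (2 * w)) (2 ^ (L - J * (2 * w)) * v) U : ℝ) ≤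
      ∑ q ∈ range (2 ^ i) ×ˢ range (2 ^ i),
        (XX L (v + 4 * 8 ^ L) (J * (2 * w)) (2 ^ (L - J * (2 * w)) * v) (node P2 i q.2 q.1 U) : ℝ) := by
    exact_mod_cast XX_le hN1 i L (J * (2 * w)) (v + 4 * 8 ^ L) (2 ^ (L - J * (2 * w)) * v) U
  refine h3.trans ?_
  have h4 : ∀ q ∈ range (2 ^ i) ×ˢ range (2 ^ i),
      (XX L (v + 4 * 8 ^ L) (J * (2 * w)) (2 ^ (L - J * (2 * w)) * v) (node P2 i q.2 q.1 U) : ℝ) ≤
        eps L * 4 ^ L := by
    intro q _
    refine (key _ v).trans ?_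
    apply mul_le_mul_of_nonneg_right _ (by positivity)
    exact hsum
  refine (Finset.sum_le_sum h4).trans ?_
  rw [Finset.sum_const, Finset.card_product, Finset.card_range, nsmul_eq_mul]
  push_cast
  have h5 : (2 : ℝ) ^ i * 2 ^ i = 4 ^ i := by
    rw [← mul_pow]; norm_num
  rw [h5, pow_add]
  apply le_of_eq
  ring

end Pool.Agent.H195.PPT3
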