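import Mathlib
import Pool.Agent.H576.RD.Stm
import Pool.Agent.H576.RD.Move

set_option autoImplicit false

open Real Pool.Agent.H576.RD

namespace Pool.Agent.H195.RDG1

theorem e_ext {v w : E} (h0 : v 0 = w 0) (h1 : v 1 = w 1) (h2 : v 2 = w 2) : v = w := by
  ext i; fin_cases i
  · exact h0
  · exact h1
  · exact h2

@[simp] theorem rotE_0 (θ : ℝ) (v : E) : (rotE θ v) 0 = Real.cos θ * v 0 - Real.sin θ * v 1 := rfl
@[simp] theorem rotE_1 (θ : ℝ) (v : E) : (rotE θ v) 1 = Real.sin θ * v 0 + Real.cos θ * v 1 := rfl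
@[simp] theorem rotE_2 (θ : ℝ) (v : E) : (rotE θ v) 2 = v 2 := rfl
@[simp] theorem rrE_0 (θ : ℝ) (v : E) : (rrE θ v) 0 = Real.cos θ * v 0 - Real.sin θ * v 1 := rfl
@[simp] theorem rrE_1 (θ : ℝ) (v : E) : (rrE θ v) 1 = Real.sin θ * v 0 + Real.cos θ * v 1 := rfl
@[simp] theorem rrE_2 (θ : ℝ) (v : E) : (rrE θ v) 2 = -(v 2) := rfl
@[simp] theorem mirE_0 (v : E) : (mirE v) 0 = v 0 := rfl
@[simp] theorem mirE_1 (v : E) : (mirE v) 1 = -(v 1) := rfl
@[simp] theorem mirE_2 (v : E) : (mirE v) 2 = v 2 := rfl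

theorem rotE_rotE (a b : ℝ) (v : E) : rotE a (rotE b v) = rotE (a + b) v := by
  apply e_ext
  · simp [Real.cos_add, Real.sin_add]; ring
  · simp [Real.cos_add, Real.sin_add]; ring
  · simp

theorem rotE_zero (v : E) : rotE 0 v = v := by
  apply e_ext <;> simp

theorem mirE_rotE (a : ℝ) (v : E) : mirE (rotE a v) = rotE (-a) (mirE v) := by
  apply e_ext
  · simp
  · simp; ring
  · simp

theorem rrE_eq (a : ℝ) (v : E) : rrE a v = rrE 0 (rotE a v) := by
  apply e_ext <;> simp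

theorem rotE_rrE (a b : ℝ) (v : E) : rotE a (rrE b v) = rrE (a + b) v := by
  apply e_ext
  · simp [Real.cos_add, Real.sin_add]; ring
  · simp [Real.cos_add, Real.sin_add]; ring
  · simp

theorem rrE_rrE (a b : ℝ) (v : E) : rrE a (rrE b v) = rotE (a + b) v := by
  apply e_ext
  · simp [Real.cos_add, Real.sin_add]; ring
  · simp [Real.cos_add, Real.sin_add]; ring
  · simp

theorem norm_sq3 (v : E) : ‖v‖ ^ 2 = v 0 ^ 2 + v 1 ^ 2 + v 2 ^ 2 := by
  rw [EuclideanSpace.real_norm_sq_eq, Fin.sum_univ_three]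

theorem norm_congr3 {v w : E} (h : v 0 ^ 2 + v 1 ^ 2 + v 2 ^ 2 = w 0 ^ 2 + w 1 ^ 2 + w 2 ^ 2) :
    ‖v‖ = ‖w‖ := by
  have : ‖v‖ ^ 2 = ‖w‖ ^ 2 := by rw [norm_sq3, norm_sq3, h]
  exact (sq_eq_sq₀ (norm_nonneg _) (norm_nonneg _)).1 this

/-- the rotation as a linear isometry -/
noncomputable def rotL (θ : ℝ) : LI where
  toFun := rotE θ
  invFun := rotE (-θ)
  map_add' := by
    intro v w
    apply e_ext
    · simp; ring
    · simp; ring
    · simp
  map_smul' := by
    intro c v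
    apply e_ext
    · simp; ring
    · simp; ring
    · simp
  left_inv := by intro v; rw [rotE_rotE]; simp [rotE_zero]
  right_inv := by intro v; rw [rotE_rotE]; simp [rotE_zero]
  norm_map' := by
    intro v
    apply norm_congr3
    have := Real.sin_sq_add_cos_sq θ
    simp
    linear_combination (v 0 ^ 2 + v 1 ^ 2) * this

theorem rotL_apply (θ : ℝ) (v : E) : rotL θ v = rotE θ v := rfl

/-- the reflection in the horizontal plane as a linear isometry -/
noncomputable def sigL : LI where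
  toFun := rrE 0
  invFun := rrE 0
  map_add' := by
    intro v w
    apply e_ext
    · simp
    · simp
    · simp; ring
  map_smul' := by
    intro c v
    apply e_ext <;> simp
  left_inv := by intro v; rw [rrE_rrE]; simp [rotE_zero]
  right_inv := by intro v; rw [rrE_rrE]; simp [rotE_zero]
  norm_map' := by
    intro v
    apply norm_congr3
    simp

theorem sigL_apply (v : E) : sigL v = rrE 0 v := rfl

theorem dt_mul (g h : LI) : dt (g * h) = dt g * dt h := by
  unfold dt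
  rw [← LinearMap.det_comp]
  rfl

theorem dt_one : dt 1 = 1 := by
  unfold dt
  exact LinearMap.det_id

theorem dt_inv (g : LI) : dt g * dt g⁻¹ = 1 := by
  rw [← dt_mul, mul_inv_cancel, dt_one]

/-- standard basis vector -/
noncomputable abbrev eb (i : Fin 3) : E := EuclideanSpace.single i (1 : ℝ)

theorem dt_eq (g : LI) : dt g =
    (g (eb 0)) 0 * (g (eb 1)) 1 * (g (eb 2)) 2 - (g (eb 0)) 0 * (g (eb 2)) 1 * (g (eb 1)) 2
    - (g (eb 1)) 0 * (g (eb 0)) 1 * (g (eb 2)) 2 + (g (eb 1)) 0 * (g (eb 2)) 1 * (g (eb 0)) 2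
    + (g (eb 2)) 0 * (g (eb 0)) 1 * (g (eb 1)) 2 - (g (eb 2)) 0 * (g (eb 1)) 1 * (g (eb 0)) 2 := by
  unfold dt
  rw [← LinearMap.det_toMatrix (EuclideanSpace.basisFun (Fin 3) ℝ).toBasis, Matrix.det_fin_three]
  simp [LinearMap.toMatrix_apply, eb]

theorem dt_sig : dt sigL = -1 := by
  rw [dt_eq]
  simp [sigL_apply, eb]

theorem vec_eq (v : E) : v = v 0 • eb 0 + v 1 • eb 1 + v 2 • eb 2 := by
  apply e_ext <;> simp [eb]

theorem exists_angle {c s : ℝ} (h : c ^ 2 + s ^ 2 = 1) : ∃ θ : ℝ, Real.cos θ = c ∧ Real.sin θ = s := by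
  have h1 : ‖(⟨c, s⟩ : ℂ)‖ = 1 := by
    have : ‖(⟨c, s⟩ : ℂ)‖ ^ 2 = 1 := by
      rw [← Complex.normSq_eq_norm_sq, Complex.normSq_mk]; linarith [h, sq c, sq s]
    have h2 := norm_nonneg (⟨c, s⟩ : ℂ)
    nlinarith
  obtain ⟨θ, hθ⟩ := (Complex.norm_eq_one_iff _).1 h1
  refine ⟨θ, ?_, ?_⟩
  · rw [← Complex.exp_ofReal_mul_I_re, hθ]
  · rw [← Complex.exp_ofReal_mul_I_im, hθ]

theorem inner3 (v w : E) : inner ℝ v w = v 0 * w 0 + v 1 * w 1 + v 2 * w 2 := by
  rw [PiLp.inner_apply, Fin.sum_univ_three]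
  simp [mul_comm]

theorem sq_eq_one_iff_of_side {x : ℝ} (h : x ^ 2 = 1) : x = 1 ∨ x = -1 := by
  have : (x - 1) * (x + 1) = 0 := by linear_combination h
  rcases mul_eq_zero.1 this with h | h
  · left; linarith
  · right; linarith

/-- classification of the isometries fixing the third axis pointwise -/
theorem classify (M : LI) (hM : M (eb 2) = eb 2) : ∃ θ : ℝ,
    (dt M = 1 ∧ ∀ v, M v = rotE θ v) ∨ (dt M = -1 ∧ ∀ v, M v = rotE θ (mirE v)) := by
  have h02 : inner ℝ (M (eb 0)) (M (eb 2)) = (0 : ℝ) := by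
    rw [LinearIsometryEquiv.inner_map_map]; simp [inner3]
  have h12 : inner ℝ (M (eb 1)) (M (eb 2)) = (0 : ℝ) := by
    rw [LinearIsometryEquiv.inner_map_map]; simp [inner3]
  have h01 : inner ℝ (M (eb 0)) (M (eb 1)) = (0 : ℝ) := by
    rw [LinearIsometryEquiv.inner_map_map]; simp [inner3]
  have h00 : inner ℝ (M (eb 0)) (M (eb 0)) = (1 : ℝ) := by
    rw [LinearIsometryEquiv.inner_map_map]; simp
  have h11 : inner ℝ (M (eb 1)) (M (eb 1)) = (1 : ℝ) := by
    rw [LinearIsometryEquiv.inner_map_map]; simp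
  rw [hM] at h02 h12
  rw [inner3] at h02 h12 h01 h00 h11
  have e20 : (eb 2) 0 = (0 : ℝ) := by simp [eb]
  have e21 : (eb 2) 1 = (0 : ℝ) := by simp [eb]
  have e22 : (eb 2) 2 = (1 : ℝ) := by simp [eb]
  rw [e20, e21, e22] at h02 h12
  have z0 : (M (eb 0)) 2 = 0 := by linarith
  have z1 : (M (eb 1)) 2 = 0 := by linarith
  rw [z0, z1] at h01
  rw [z0] at h00
  rw [z1] at h11
  have hdt := dt_eq M
  rw [hM, e20, e21, e22, z0, z1] at hdt
  obtain ⟨θ, hc, hs⟩ := exists_angle (c := (M (eb 0)) 0) (s := (M (eb 0)) 1) (by linarith)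
  set c := (M (eb 0)) 0 with hcd
  set s := (M (eb 0)) 1 with hsd
  set c' := (M (eb 1)) 0 with hcd'
  set s' := (M (eb 1)) 1 with hsd'
  have hd2 : (c * s' - c' * s) ^ 2 = 1 := by
    have : (c * s' - c' * s) ^ 2 = (c ^ 2 + s ^ 2) * (c' ^ 2 + s' ^ 2) - (c * c' + s * s') ^ 2 := by
      ring
    rw [this]
    have a1 : c ^ 2 + s ^ 2 = 1 := by linarith
    have a2 : c' ^ 2 + s' ^ 2 = 1 := by linarith
    have a3 : c * c' + s * s' = 0 := by linarith
    rw [a1, a2, a3]; norm_num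
  have hd : dt M = c * s' - c' * s := by rw [hdt]; ring
  have key : ∀ v : E, M v = v 0 • M (eb 0) + v 1 • M (eb 1) + v 2 • M (eb 2) := by
    intro v
    conv_lhs => rw [vec_eq v]
    simp only [map_add, map_smul]
  refine ⟨θ, ?_⟩
  rcases sq_eq_one_iff_of_side hd2 with h | h
  · left
    refine ⟨by rw [hd, h], ?_⟩
    have b1 : s' = c := by linear_combination c * h + s * h01 - s' * h00 
    have b2 : c' = -s := by linear_combination (-s) * h + c * h01 - c' * h00
    intro v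
    rw [key v, hM]
    apply e_ext
    · simp [hcd.symm, hcd'.symm, hc, hs, b2]; try ring
    · simp [hsd.symm, hsd'.symm, hc, hs, b1]; try ring
    · simp [z0, z1]
  · right
    refine ⟨by rw [hd, h], ?_⟩
    have b1 : s' = -c := by linear_combination c * h + s * h01 - s' * h00
    have b2 : c' = s := by linear_combination (-s) * h + c * h01 - c' * h00
    intro v
    rw [key v, hM]
    apply e_ext
    · simp [hcd.symm, hcd'.symm, hc, hs, b2]; try ring
    · simp [hsd.symm, hsd'.symm, hc, hs, b1]; try ring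
    · simp [z0, z1]

theorem e2_eq : e2 = eb 2 := rfl

theorem rotL_e2 (θ : ℝ) : rotL θ e2 = e2 := by
  rw [rotL_apply]
  apply e_ext <;> simp [e2]

/-- the sign of `g` on the invariant line of `a` -/
noncomputable def sg (a : E) (g : LI) : ℤˣ := by
  classical exact if g a = a then 1 else -1

/-- the sign of the determinant -/
noncomputable def sd (g : LI) : ℤˣ := by
  classical exact if dt g = 1 then 1 else -1

theorem sg_mul {a : E} (ha : a ≠ 0) {g h : LI} (hg : g a = a ∨ g a = -a) (hh : h a = a ∨ h a = -a) :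
    sg a (g * h) = sg a g * sg a h := by
  have hne : -a ≠ a := by
    intro h
    apply ha
    have : (2 : ℝ) • a = 0 := by
      rw [two_smul]; nth_rewrite 1 [← h]; simp
    simpa using this
  unfold sg
  rw [li_mul_apply]
  rcases hg with hg | hg <;> rcases hh with hh | hh <;> simp [hg, hh, hne]

theorem sg_eq_one {a : E} {g : LI} : sg a g = 1 ↔ g a = a := by
  unfold sg
  split_ifs with h
  · simp [h]
  · simp [h]

theorem sd_mul {g h : LI} (hg : dt g = 1 ∨ dt g = -1) (hh : dt h = 1 ∨ dt h = -1) :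
    sd (g * h) = sd g * sd h := by
  unfold sd
  rw [dt_mul]
  rcases hg with hg | hg <;> rcases hh with hh | hh <;> rw [hg, hh] <;> norm_num

theorem sd_eq_one {g : LI} : sd g = 1 ↔ dt g = 1 := by
  unfold sd
  split_ifs with h
  · simp [h]
  · simp [h]

theorem dt_pow (g : LI) (n : ℕ) : dt (g ^ n) = dt g ^ n := by
  induction n with
  | zero => simp [dt_one]
  | succ n ih => rw [pow_succ, dt_mul, ih, pow_succ]

theorem dt_cases {G : Subgroup LI} (hG : Finite G) {g : LI} (hg : g ∈ G) : dt g = 1 ∨ dt g = -1 := by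
  have h1 : (⟨g, hg⟩ : G) ^ Nat.card G = 1 := pow_card_eq_one'
  have h2 : g ^ Nat.card G = 1 := by
    exact congrArg (Subtype.val) h1
  have h3 : dt g ^ Nat.card G = 1 := by rw [← dt_pow, h2, dt_one]
  have h4 : |dt g| ^ Nat.card G = 1 := by rw [← abs_pow, h3, abs_one]
  have h5 : Nat.card G ≠ 0 := Nat.card_pos.ne'
  have h6 : |dt g| = 1 := (pow_eq_one_iff_of_nonneg (abs_nonneg _) h5).1 h4
  rcases abs_cases (dt g) with h | h
  · left; linarith [h.1]
  · right; linarith [h.1]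

/-- the sign homomorphism -/
noncomputable def sH (G : Subgroup LI) (hG : Finite G) (a : E) (ha : a ≠ 0)
    (hinv : ∀ g ∈ G, g a = a ∨ g a = -a) : G →* ℤˣ × ℤˣ where
  toFun g := (sg a g.1, sd g.1)
  map_one' := by
    refine Prod.ext ?_ ?_
    · exact sg_eq_one.2 rfl
    · exact sd_eq_one.2 dt_one
  map_mul' := by
    intro g h
    refine Prod.ext ?_ ?_
    · exact sg_mul ha (hinv _ g.2) (hinv _ h.2)
    · exact sd_mul (dt_cases hG g.2) (dt_cases hG h.2)

theorem fr_mul {β g h : LI} {f k : E → E} (hg : ∀ v, g (β v) = β (f v)) (hh : ∀ v, h (β v) = β (k v)) :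
    ∀ v, (g * h) (β v) = β (f (k v)) := by
  intro v
  rw [li_mul_apply, hh, hg]

theorem fr_inv {β g : LI} {φ : ℝ} (hg : ∀ v, g (β v) = β (rotE φ v)) :
    ∀ v, (g⁻¹ : LI) (β v) = β (rotE (-φ) v) := by
  intro v
  have h := hg (rotE (-φ) v)
  rw [rotE_rotE, add_neg_cancel, rotE_zero] at h
  rw [← h, li_inv_apply]

theorem fr_pow {β g : LI} {φ : ℝ} (hg : ∀ v, g (β v) = β (rotE φ v)) (j : ℕ) :
    ∀ v, (g ^ j : LI) (β v) = β (rotE (j * φ) v) := by
  induction j with
  | zero => intro v; simp [rotE_zero]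
  | succ j ih =>
    intro v
    rw [pow_succ]
    rw [fr_mul ih hg v, rotE_rotE]
    congr 2
    push_cast; ring

theorem fr_int {G : Subgroup LI} {β g : LI} {φ : ℝ} (hgG : g ∈ G) (hg : ∀ v, g (β v) = β (rotE φ v))
    (i : ℤ) : ∃ h ∈ G, ∀ v, h (β v) = β (rotE (i * φ) v) := by
  obtain ⟨j, rfl | rfl⟩ := Int.eq_nat_or_neg i
  · refine ⟨g ^ j, G.pow_mem hgG j, ?_⟩
    have := fr_pow hg j
    simpa using this
  · refine ⟨(g⁻¹) ^ j, G.pow_mem (G.inv_mem hgG) j, ?_⟩
    have := fr_pow (fr_inv hg) j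
    intro v
    rw [this v]
    congr 2
    push_cast; ring

theorem fr_conj {β g : LI} {f : E → E} : (∀ v, g (β v) = β (f v)) ↔ ∀ v, (β⁻¹ * g * β) v = f v := by
  constructor
  · intro h v
    rw [li_mul_apply, li_mul_apply, h v, li_inv_apply]
  · intro h v
    rw [← h v, li_mul_apply, li_mul_apply, li_apply_inv]

theorem dt_conj (β g : LI) : dt (β⁻¹ * g * β) = dt g := by
  rw [dt_mul, dt_mul]
  have := dt_inv β
  linear_combination dt g * this

/-- G1. -/
theorem rd_g1 (hCYC : S_CYC) : S_G1 := by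
  intro G hG hIrr
  unfold Irr at hIrr
  push Not at hIrr
  obtain ⟨a0, ha0, hinv0⟩ := hIrr
  -- normalise
  obtain ⟨a, ha1, hinv⟩ : ∃ a : E, ‖a‖ = 1 ∧ ∀ g ∈ G, g a = a ∨ g a = -a := by
    refine ⟨(‖a0‖)⁻¹ • a0, ?_, ?_⟩
    · rw [norm_smul, norm_inv, norm_norm, inv_mul_cancel₀ (norm_ne_zero_iff.2 ha0)]
    · intro g hg
      by_cases h : g a0 = a0
      · left; rw [map_smul, h]
      · right; rw [map_smul, hinv0 g hg h, smul_neg]
  have ha : a ≠ 0 := by
    intro h; rw [h, norm_zero] at ha1; exact zero_ne_one ha1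
  set f := sH G hG a ha hinv with hf
  set A : Subgroup LI := f.ker.map G.subtype with hA
  have hAmem : ∀ g : LI, g ∈ A ↔ g ∈ G ∧ g a = a ∧ dt g = 1 := by
    intro g
    rw [hA, Subgroup.mem_map]
    constructor
    · rintro ⟨x, hx, rfl⟩
      have hx' : (sg a x.1, sd x.1) = (1, 1) := hx
      exact ⟨x.2, sg_eq_one.1 (congrArg Prod.fst hx'), sd_eq_one.1 (congrArg Prod.snd hx')⟩
    · rintro ⟨h1, h2, h3⟩
      refine ⟨⟨g, h1⟩, ?_, rfl⟩
      rw [MonoidHom.mem_ker]
      exact Prod.ext (sg_eq_one.2 h2) (sd_eq_one.2 h3)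
  have hAG : A ≤ G := fun g hg => ((hAmem g).1 hg).1
  have hAfin : Finite A := by
    have : Function.Injective (Subgroup.inclusion hAG) := Subgroup.inclusion_injective hAG
    exact Finite.of_injective _ this
  have hcardA : Nat.card A = Nat.card f.ker := by
    rw [hA]
    exact (Nat.card_congr (f.ker.equivMapOfInjective G.subtype G.subtype_injective).toEquiv).symm
  have hcardG : Nat.card G = Nat.card A * Nat.card f.range := by
    rw [hcardA, ← Subgroup.index_ker, Subgroup.card_mul_index]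
  obtain ⟨β₀, hβ₀, r, hrA, hr⟩ := hCYC A a hAfin ha1 (fun g hg => ⟨((hAmem g).1 hg).2.2, ((hAmem g).1 hg).2.1⟩)
  set n := Nat.card A with hn
  have hn1 : 1 ≤ n := Nat.card_pos
  have hrG := hAG hrA
  have hdvd : Nat.card f.range ∣ 4 := by
    have h1 := Subgroup.card_subgroup_dvd_card f.range
    have h2 : Nat.card (ℤˣ × ℤˣ) = 4 := by
      rw [Nat.card_prod, Nat.card_eq_fintype_card]; rfl
    rwa [h2] at h1
  have hj : Nat.card f.range = 1 ∨ Nat.card f.range = 2 ∨ Nat.card f.range = 4 := by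
    have h1 : Nat.card f.range ≤ 4 := Nat.le_of_dvd (by norm_num) hdvd
    interval_cases h : Nat.card f.range
    · simp at hdvd
    · simp
    · simp
    · norm_num at hdvd
    · simp
  rcases hj with hj | hj | hj
  · refine ⟨β₀, n, hn1, ⟨r, hrG, hr⟩, Or.inl ?_⟩
    rw [hcardG, hj, mul_one]
  · refine ⟨β₀, n, hn1, ⟨r, hrG, hr⟩, Or.inr (Or.inl ?_)⟩
    rw [hcardG, hj, mul_comm]
  · have htop : f.range = ⊤ := by
      apply Subgroup.eq_top_of_card_eq
      rw [hj, Nat.card_prod, Nat.card_eq_fintype_card]; rfl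
    have hne : (-1 : ℤˣ) ≠ 1 := by decide
    obtain ⟨m, hm⟩ : ∃ m, f m = (1, -1) := by
      have : ((1, -1) : ℤˣ × ℤˣ) ∈ f.range := by rw [htop]; trivial
      exact this
    obtain ⟨w, hw⟩ : ∃ w, f w = (-1, -1) := by
      have : ((-1, -1) : ℤˣ × ℤˣ) ∈ f.range := by rw [htop]; trivial
      exact this
    have hm' : (sg a m.1, sd m.1) = (1, -1) := hm
    have hw' : (sg a w.1, sd w.1) = (-1, -1) := hw
    have hma : m.1 a = a := sg_eq_one.1 (congrArg Prod.fst hm')
    have hmd : dt m.1 = -1 := by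
      rcases dt_cases hG m.2 with h | h
      · exfalso
        have h1 : sd m.1 = -1 := congrArg Prod.snd hm'
        rw [sd_eq_one.2 h] at h1
        exact hne h1.symm
      · exact h
    have hwd : dt w.1 = -1 := by
      rcases dt_cases hG w.2 with h | h
      · exfalso
        have h1 : sd w.1 = -1 := congrArg Prod.snd hw'
        rw [sd_eq_one.2 h] at h1
        exact hne h1.symm
      · exact h
    have hwa : w.1 a = -a := by
      rcases hinv w.1 w.2 with h | h
      · exfalso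
        have h1 : sg a w.1 = -1 := congrArg Prod.fst hw'
        rw [sg_eq_one.2 h] at h1
        exact hne h1.symm
      · exact h
    -- the mirror
    have hM2 : (β₀⁻¹ * m.1 * β₀) (eb 2) = eb 2 := by
      rw [li_mul_apply, li_mul_apply, ← e2_eq, hβ₀, hma, ← hβ₀, li_inv_apply]
    obtain ⟨θ, h | ⟨_, hMθ⟩⟩ := classify _ hM2
    · exfalso
      rw [dt_conj, hmd] at h
      norm_num at h
    have hmθ := fr_conj.2 hMθ
    set β : LI := β₀ * rotL (θ / 2) with hβ
    have hβa : β e2 = a := by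
      rw [hβ, li_mul_apply, rotL_e2, hβ₀]
    have hβv : ∀ v, β v = β₀ (rotE (θ / 2) v) := fun v => rfl
    have hrβ : ∀ v, r (β v) = β (rotE (2 * π / (n : ℕ)) v) := by
      intro v
      rw [hβv, hr, hβv, rotE_rotE, rotE_rotE, add_comm]
    have hmβ : ∀ v, m.1 (β v) = β (mirE v) := by
      intro v
      rw [hβv, hmθ, hβv, mirE_rotE, rotE_rotE]
      congr 2
      ring
    -- the rotoreflection
    have hW2 : (sigL * (β⁻¹ * w.1 * β)) (eb 2) = eb 2 := by
      rw [li_mul_apply, li_mul_apply, li_mul_apply, ← e2_eq, hβa, hwa, ← hβa, map_neg, li_inv_apply,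
        sigL_apply]
      apply e_ext <;> simp [e2]
    obtain ⟨ψ, ⟨_, hWψ⟩ | h⟩ := classify _ hW2
    swap
    · exfalso
      have h1 := h.1
      rw [dt_mul, dt_conj, hwd, dt_sig] at h1
      norm_num at h1
    have hwβ : ∀ v, w.1 (β v) = β (rrE ψ v) := by
      rw [fr_conj]
      intro v
      have h1 := hWψ v
      rw [li_mul_apply, sigL_apply] at h1
      rw [rrE_eq, ← h1, rrE_rrE, add_zero, rotE_zero]
    -- the square
    have hww : ∀ v, (w.1 * w.1) (β v) = β (rotE (ψ + ψ) v) := by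
      intro v
      rw [fr_mul hwβ hwβ v, rrE_rrE]
    have hwwA : w.1 * w.1 ∈ A := by
      rw [hAmem]
      refine ⟨G.mul_mem w.2 w.2, ?_, ?_⟩
      · rw [li_mul_apply, hwa, map_neg, hwa, neg_neg]
      · rw [dt_mul, hwd]; norm_num
    have hone : (w.1 * w.1) ^ n = 1 := by
      have h1 : (⟨w.1 * w.1, hwwA⟩ : A) ^ Nat.card A = 1 := pow_card_eq_one'
      exact congrArg (Subtype.val) h1
    have hcos : Real.cos (n * (ψ + ψ)) = 1 := by
      have h1 := fr_pow hww n (eb 0)
      rw [hone] at h1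
      have h2 : β (eb 0) = β (rotE (n * (ψ + ψ)) (eb 0)) := h1
      have h3 := β.injective h2
      have h4 := congrArg (fun v : E => v 0) h3
      simp [eb] at h4
      exact h4.symm
    obtain ⟨k, hk⟩ := (Real.cos_eq_one_iff _).1 hcos
    have hn0 : (n : ℝ) ≠ 0 := by positivity
    have hψ : ψ = k * π / n := by
      field_simp
      linear_combination -hk / 2
    refine ⟨β, n, hn1, ⟨r, hrG, hrβ⟩, Or.inr (Or.inr ⟨?_, ⟨m.1, m.2, hmβ⟩, ?_⟩)⟩
    · rw [hcardG, hj, mul_comm]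
    · rcases Int.even_or_odd' k with ⟨i, hi | hi⟩
      · left
        obtain ⟨h, hhG, hh⟩ := fr_int hrG hrβ (-i)
        refine ⟨h * w.1, G.mul_mem hhG w.2, ?_⟩
        intro v
        rw [fr_mul hh hwβ v, rotE_rrE]
        congr 2
        rw [hψ, hi]
        push_cast
        ring
      · right
        obtain ⟨h, hhG, hh⟩ := fr_int hrG hrβ (-i)
        refine ⟨h * w.1, G.mul_mem hhG w.2, ?_⟩
        intro v
        rw [fr_mul hh hwβ v, rotE_rrE]
        congr 2
        rw [hψ, hi]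
        push_cast
        ring

end Pool.Agent.H195.RDG1

theorem Pool.Agent.H195.rd_g1 (hCYC : Pool.Agent.H576.RD.S_CYC) : Pool.Agent.H576.RD.S_G1 :=
  Pool.Agent.H195.RDG1.rd_g1 hCYC
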