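import Pool.Agent.H770.GS.TB

/-!
# Project TB, item 11: positivity of `YY` on nine boxes
-/

set_option autoImplicit false

open MeasureTheory Set intervalIntegral Filter Topology

namespace Pool.Agent.H195.TBB

open Pool.Agent.H770.GS

/-- upper bound of `I2` for `q² ≤ 9/4` -/
theorem I2_up {q : ℝ} (hq : 0 ≤ q) (hT : q ^ 2 ≤ 9 / 4) :
    I2 q ≤ 2 * q * (1 + 2 / 3 * q ^ 2 + 4 / 15 * q ^ 4 + 8 / 105 * q ^ 6 + 16 / 945 * q ^ 8 +
      32 / 10395 * q ^ 10 + 64 / 135135 * q ^ 12 + 128 / 2027025 * q ^ 14 +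
      512 / 50675625 * q ^ 16) * Real.exp (-q ^ 2) := by
  set D : ℝ → ℝ := fun q => 2 * q * (1 + 2 / 3 * q ^ 2 + 4 / 15 * q ^ 4 + 8 / 105 * q ^ 6 +
      16 / 945 * q ^ 8 + 32 / 10395 * q ^ 10 + 64 / 135135 * q ^ 12 + 128 / 2027025 * q ^ 14 +
      512 / 50675625 * q ^ 16) * Real.exp (-q ^ 2) - I2 q with hD
  have hd : ∀ x, HasDerivAt D (4 * (512 / 50675625) * x ^ 16 * (9 / 4 - x ^ 2) *
      Real.exp (-x ^ 2)) x := by
    intro x
    have hp : HasDerivAt (fun q : ℝ => 2 * q * (1 + 2 / 3 * q ^ 2 + 4 / 15 * q ^ 4 +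
      8 / 105 * q ^ 6 + 16 / 945 * q ^ 8 + 32 / 10395 * q ^ 10 + 64 / 135135 * q ^ 12 +
      128 / 2027025 * q ^ 14 + 512 / 50675625 * q ^ 16))
        (2 * 1 * (1 + 2 / 3 * x ^ 2 + 4 / 15 * x ^ 4 +
      8 / 105 * x ^ 6 + 16 / 945 * x ^ 8 + 32 / 10395 * x ^ 10 + 64 / 135135 * x ^ 12 +
      128 / 2027025 * x ^ 14 + 512 / 50675625 * x ^ 16) + 2 * x * (0 + 2 / 3 * (2 * x) +
      4 / 15 * (4 * x ^ 3) + 8 / 105 * (6 * x ^ 5) + 16 / 945 * (8 * x ^ 7) +
      32 / 10395 * (10 * x ^ 9) + 64 / 135135 * (12 * x ^ 11) + 128 / 2027025 * (14 * x ^ 13) +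
      512 / 50675625 * (16 * x ^ 15))) x := by
      have e : ∀ n : ℕ, HasDerivAt (fun q : ℝ => q ^ n) (n * x ^ (n - 1)) x := fun n =>
        hasDerivAt_pow n x
      have h1 := ((((((((hasDerivAt_const x (1 : ℝ)).add ((e 2).const_mul (2 / 3))).add
        ((e 4).const_mul (4 / 15))).add ((e 6).const_mul (8 / 105))).add
        ((e 8).const_mul (16 / 945))).add ((e 10).const_mul (32 / 10395))).add
        ((e 12).const_mul (64 / 135135))).add ((e 14).const_mul (128 / 2027025))).add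
        ((e 16).const_mul (512 / 50675625))
      have h2 := ((hasDerivAt_id x).const_mul 2).mul h1
      refine h2.congr_deriv ?_
      simp only [id]
      push_cast
      norm_num
    have he : HasDerivAt (fun q : ℝ => Real.exp (-q ^ 2)) (Real.exp (-x ^ 2) * (-(2 * x))) x := by
      have h := ((hasDerivAt_pow 2 x).neg).exp
      refine h.congr_deriv ?_
      push_cast
      norm_num
    have h := (hp.mul he).sub (I2_deriv x)
    refine h.congr_deriv ?_
    ring
  have hmono : MonotoneOn D (Icc 0 q) := by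
    refine monotoneOn_of_deriv_nonneg (convex_Icc 0 q)
      (fun x _ => (hd x).continuousAt.continuousWithinAt)
      (fun x _ => (hd x).differentiableAt.differentiableWithinAt) ?_
    intro x hx
    rw [interior_Icc] at hx
    rw [(hd x).deriv]
    have h1 : x ^ 2 ≤ q ^ 2 := pow_le_pow_left₀ hx.1.le hx.2.le 2
    have h2 : 0 ≤ 9 / 4 - x ^ 2 := by linarith
    have h3 : 0 ≤ x ^ 16 := by positivity
    have := Real.exp_pos (-x ^ 2)
    positivity
  have h0 := hmono (left_mem_Icc.2 hq) (right_mem_Icc.2 hq) hq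
  have hz : D 0 = 0 := by simp [hD, I2_zero]
  rw [hz] at h0
  simp only [hD] at h0
  linarith

theorem eL_pos (r x : ℝ) : 0 < eL r x := Real.exp_pos _

/-- upper bound of `fL` -/
theorem fL_up {r x T γ : ℝ} (hx : x ≤ 2 * r) (hT : (r - x / 2) ^ 2 ≤ T) (hT2 : T ≤ 9 / 4)
    (hγ : 2 / 3 + 4 / 15 * T + 8 / 105 * T ^ 2 + 16 / 945 * T ^ 3 + 32 / 10395 * T ^ 4 +
      64 / 135135 * T ^ 5 + 128 / 2027025 * T ^ 6 + 512 / 50675625 * T ^ 7 ≤ γ) :
    fL r x ≤ (2 * r - x) * eL r x * (1 + γ * (r - x / 2) ^ 2) := by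
  set q : ℝ := r - x / 2 with hq
  have hq0 : 0 ≤ q := by rw [hq]; linarith
  have h := I2_up hq0 (hT.trans hT2)
  have he : Real.exp (-x ^ 2 / 4) * Real.exp (-q ^ 2) = eL r x := by
    unfold eL
    rw [← Real.exp_add]
    congr 1
    rw [hq]
    ring
  set t : ℝ := q ^ 2 with ht
  have ht0 : 0 ≤ t := by rw [ht]; positivity
  have hpoly : 1 + 2 / 3 * q ^ 2 + 4 / 15 * q ^ 4 + 8 / 105 * q ^ 6 + 16 / 945 * q ^ 8 +
      32 / 10395 * q ^ 10 + 64 / 135135 * q ^ 12 + 128 / 2027025 * q ^ 14 +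
      512 / 50675625 * q ^ 16 ≤ 1 + γ * t := by
    have e1 : 1 + 2 / 3 * q ^ 2 + 4 / 15 * q ^ 4 + 8 / 105 * q ^ 6 + 16 / 945 * q ^ 8 +
      32 / 10395 * q ^ 10 + 64 / 135135 * q ^ 12 + 128 / 2027025 * q ^ 14 +
      512 / 50675625 * q ^ 16 = 1 + (2 / 3 + 4 / 15 * t + 8 / 105 * t ^ 2 + 16 / 945 * t ^ 3 +
      32 / 10395 * t ^ 4 + 64 / 135135 * t ^ 5 + 128 / 2027025 * t ^ 6 +
      512 / 50675625 * t ^ 7) * t := by
      rw [ht]; ring
    have e2 : 2 / 3 + 4 / 15 * t + 8 / 105 * t ^ 2 + 16 / 945 * t ^ 3 +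
      32 / 10395 * t ^ 4 + 64 / 135135 * t ^ 5 + 128 / 2027025 * t ^ 6 +
      512 / 50675625 * t ^ 7 ≤ γ := by
      refine le_trans ?_ hγ
      gcongr
    rw [e1]
    have := mul_le_mul_of_nonneg_right e2 ht0
    linarith
  have h2 : fL r x = Real.exp (-x ^ 2 / 4) * I2 q := rfl
  rw [h2, ← he]
  have hE1 := Real.exp_pos (-x ^ 2 / 4)
  have hE2 := Real.exp_pos (-q ^ 2)
  calc Real.exp (-x ^ 2 / 4) * I2 q
      ≤ Real.exp (-x ^ 2 / 4) * (2 * q * (1 + 2 / 3 * q ^ 2 + 4 / 15 * q ^ 4 + 8 / 105 * q ^ 6 +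
        16 / 945 * q ^ 8 + 32 / 10395 * q ^ 10 + 64 / 135135 * q ^ 12 + 128 / 2027025 * q ^ 14 +
        512 / 50675625 * q ^ 16) * Real.exp (-q ^ 2)) := mul_le_mul_of_nonneg_left h hE1.le
    _ ≤ Real.exp (-x ^ 2 / 4) * (2 * q * (1 + γ * t) * Real.exp (-q ^ 2)) := by
        gcongr
    _ = (2 * r - x) * (Real.exp (-x ^ 2 / 4) * Real.exp (-q ^ 2)) * (1 + γ * t) := by
        rw [hq]; ring

/-- the polynomial -/
noncomputable def PP (σ γ R w : ℝ) : ℝ :=
  2 * (1 - σ) + R * (2 + σ) * (6 * w ^ 2 - 2 * w) +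
    4 * R * w * (1 - w) * (1 + γ * R * (1 - w) ^ 2) * (R * w ^ 2 * (2 + σ) - 3 / 2 * σ)

theorem core {r σ x T γ : ℝ} (hr : 0 < r) (hx0 : 0 ≤ x) (hx : x ≤ 2 * r) (hrT : r ^ 2 ≤ T)
    (hT2 : T ≤ 9 / 4)
    (hγ : 2 / 3 + 4 / 15 * T + 8 / 105 * T ^ 2 + 16 / 945 * T ^ 3 + 32 / 10395 * T ^ 4 +
      64 / 135135 * T ^ 5 + 128 / 2027025 * T ^ 6 + 512 / 50675625 * T ^ 7 ≤ γ)
    (hσ : 0 ≤ σ) (h1 : 0 ≤ 2 * (1 - σ) - T * (2 + σ) / 6)
    (hP : ∀ w, 0 ≤ w → w ≤ 1 → 0 ≤ PP σ γ (r ^ 2) w) : 0 ≤ YY r σ x := by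
  have he := eL_pos r x
  have hf := fL_nonneg hx
  set B : ℝ := x ^ 2 / 2 - σ * (3 / 2 - x ^ 2 / 4) with hB
  set E : ℝ := 2 - 2 * r * x + 3 * x ^ 2 - σ * (2 + r * x - 3 * x ^ 2 / 2) with hE
  have hYY : YY r σ x = x * fL r x * B + eL r x * E := rfl
  rw [hYY]
  rcases le_total 0 B with hB0 | hB0
  · have h2 : 0 ≤ E := by
      have e : E = 2 * (1 - σ) - T * (2 + σ) / 6 + (2 + σ) * (3 / 2 * (x - r / 3) ^ 2) +
          (T - r ^ 2) * (2 + σ) / 6 := by
        rw [hE]; ring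
      have h3 : 0 ≤ T - r ^ 2 := by linarith
      have h4 : 0 ≤ (2 + σ) * (3 / 2 * (x - r / 3) ^ 2) := by positivity
      have h5 : 0 ≤ (T - r ^ 2) * (2 + σ) / 6 := by positivity
      rw [e]; linarith
    positivity
  · have hq : (r - x / 2) ^ 2 ≤ T := by
      have h2 : (r - x / 2) ^ 2 ≤ r ^ 2 := by
        apply pow_le_pow_left₀ (by linarith) (by linarith)
      linarith
    have hup := fL_up hx hq hT2 hγ
    set w : ℝ := x / (2 * r) with hw
    have hw0 : 0 ≤ w := by positivity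
    have hw1 : w ≤ 1 := by
      rw [hw, div_le_one (by positivity)]
      exact hx
    have hxw : x = 2 * r * w := by
      rw [hw]; field_simp
    have h2 := hP w hw0 hw1
    have h3 : x * ((2 * r - x) * eL r x * (1 + γ * (r - x / 2) ^ 2)) * B ≤ x * fL r x * B := by
      have := mul_le_mul_of_nonneg_left hup hx0
      exact mul_le_mul_of_nonpos_right this hB0
    have h4 : x * ((2 * r - x) * eL r x * (1 + γ * (r - x / 2) ^ 2)) * B + eL r x * E =
        eL r x * PP σ γ (r ^ 2) w := by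
      rw [hB, hE]
      unfold PP
      rw [hxw]
      ring
    have h5 : 0 ≤ eL r x * PP σ γ (r ^ 2) w := by positivity
    linarith

set_option maxRecDepth 8000 in
theorem bx1_1 {R w : ℝ} (h1 : 39/100 ≤ R) (h2 : R ≤ 9/20) (h3 : 0 ≤ w) (h4 : w ≤ 7/20) :
    0 ≤ PP (6889/10000) (201/250) R w := by
  have key : ∀ a b p q : ℝ, a = R - 39/100 → b = 9/20 - R → p = w - 0 → q = 7/20 - w →
      PP (6889/10000) (201/250) R w =
        (1659200000000/1058841) * b ^ 3 * q ^ 6 +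
        (2007118039648/352947) * b ^ 3 * p * q ^ 5 +
        (13826864083048/1764735) * b ^ 3 * p ^ 2 * q ^ 4 +
        (3892029372141721/661775625) * b ^ 3 * p ^ 3 * q ^ 3 +
        (17182305203367173/4411837500) * b ^ 3 * p ^ 4 * q ^ 2 +
        (218351838578037299/88236750000) * b ^ 3 * p ^ 5 * q +
        (3936184607598326887/5294205000000) * b ^ 3 * p ^ 6 +
        (1659200000000/352947) * a * b ^ 2 * q ^ 6 +
        (1931808382176/117649) * a * b ^ 2 * p * q ^ 5 +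
        (36748446243928/1764735) * a * b ^ 2 * p ^ 2 * q ^ 4 +
        (196301849754177/14706125) * a * b ^ 2 * p ^ 3 * q ^ 3 +
        (2484097676400423/294122500) * a * b ^ 2 * p ^ 4 * q ^ 2 +
        (111490087505360407/17647350000) * a * b ^ 2 * p ^ 5 * q +
        (743763418172485897/352947000000) * a * b ^ 2 * p ^ 6 +
        (1659200000000/352947) * a ^ 2 * b * q ^ 6 +
        (1855258043360/117649) * a ^ 2 * b * p * q ^ 5 +
        (6388557973816/352947) * a ^ 2 * b * p ^ 2 * q ^ 4 +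
        (79378747155041/8823675) * a ^ 2 * b * p ^ 3 * q ^ 3 +
        (304497169756973/58824500) * a ^ 2 * b * p ^ 4 * q ^ 2 +
        (18377729078172217/3529470000) * a ^ 2 * b * p ^ 5 * q +
        (46707209903489069/23529800000) * a ^ 2 * b * p ^ 6 +
        (1659200000000/1058841) * a ^ 3 * q ^ 6 +
        (1777467023200/352947) * a ^ 3 * p * q ^ 5 +
        (1804241541640/352947) * a ^ 3 * p ^ 2 * q ^ 4 +
        (8095885152251/5294205) * a ^ 3 * p ^ 3 * q ^ 3 +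
        (22078903629823/35294700) * a ^ 3 * p ^ 4 * q ^ 2 +
        (962937481162109/705894000) * a ^ 3 * p ^ 5 * q +
        (26313190448899817/42353640000) * a ^ 3 * p ^ 6 := by
    intro a b p q ha hb hp hq
    subst ha hb hp hq
    unfold PP
    ring
  have ha : 0 ≤ R - 39/100 := by linarith
  have hb : 0 ≤ 9/20 - R := by linarith
  have hp : 0 ≤ w - 0 := by linarith
  have hq : 0 ≤ 7/20 - w := by linarith
  obtain ⟨a, ea⟩ : ∃ a, a = R - 39/100 := ⟨_, rfl⟩
  obtain ⟨b, eb⟩ : ∃ b, b = 9/20 - R := ⟨_, rfl⟩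
  obtain ⟨p, ep⟩ : ∃ p, p = w - 0 := ⟨_, rfl⟩
  obtain ⟨q, eq⟩ : ∃ q, q = 7/20 - w := ⟨_, rfl⟩
  rw [key a b p q ea eb ep eq]
  rw [← ea] at ha
  rw [← eb] at hb
  rw [← ep] at hp
  rw [← eq] at hq
  positivity

set_option maxRecDepth 8000 in
theorem bx1_2 {R w : ℝ} (h1 : 39/100 ≤ R) (h2 : R ≤ 9/20) (h3 : 7/20 ≤ w) (h4 : w ≤ 1) :
    0 ≤ PP (6889/10000) (201/250) R w := by
  have key : ∀ a b p q : ℝ, a = R - 39/100 → b = 9/20 - R → p = w - 7/20 → q = 1 - w →
      PP (6889/10000) (201/250) R w =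
        (3936184607598326887/217206405000000) * b ^ 3 * q ^ 6 +
        (239704538746769947/1206702250000) * b ^ 3 * p * q ^ 5 +
        (57087504148219471/60335112500) * b ^ 3 * p ^ 2 * q ^ 4 +
        (57904960724096959/27150800625) * b ^ 3 * p ^ 3 * q ^ 3 +
        (11708164376800/4826809) * b ^ 3 * p ^ 4 * q ^ 2 +
        (6548289776000/4826809) * b ^ 3 * p ^ 5 * q +
        (12845024000000/43441281) * b ^ 3 * p ^ 6 +
        (743763418172485897/14480427000000) * a * b ^ 2 * q ^ 6 +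
        (430458481637890013/724021350000) * a * b ^ 2 * p * q ^ 5 +
        (105490471564772989/36201067500) * a * b ^ 2 * p ^ 2 * q ^ 4 +
        (12027643101350269/1810053375) * a * b ^ 2 * p ^ 3 * q ^ 3 +
        (109944457794400/14480427) * a * b ^ 2 * p ^ 4 * q ^ 2 +
        (61591788208000/14480427) * a * b ^ 2 * p ^ 5 * q +
        (13418656000000/14480427) * a * b ^ 2 * p ^ 6 +
        (46707209903489069/965361800000) * a ^ 2 * b * q ^ 6 +
        (85974185749509203/144804270000) * a ^ 2 * b * p * q ^ 5 +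
        (21666369809032639/7240213500) * a ^ 2 * b * p ^ 2 * q ^ 4 +
        (832315808371693/120670225) * a ^ 2 * b * p ^ 3 * q ^ 3 +
        (114583669724000/14480427) * a ^ 2 * b * p ^ 4 * q ^ 2 +
        (64271340080000/14480427) * a ^ 2 * b * p ^ 5 * q +
        (4664096000000/4826809) * a ^ 2 * b * p ^ 6 +
        (26313190448899817/1737651240000) * a ^ 3 * q ^ 6 +
        (5729741948956031/28960854000) * a ^ 3 * p * q ^ 5 +
        (1483803075151063/1448042700) * a ^ 3 * p ^ 2 * q ^ 4 +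
        (518097808182389/217206405) * a ^ 3 * p ^ 3 * q ^ 3 +
        (39763705060000/14480427) * a ^ 3 * p ^ 4 * q ^ 2 +
        (22324421200000/14480427) * a ^ 3 * p ^ 5 * q +
        (14565920000000/43441281) * a ^ 3 * p ^ 6 := by
    intro a b p q ha hb hp hq
    subst ha hb hp hq
    unfold PP
    ring
  have ha : 0 ≤ R - 39/100 := by linarith
  have hb : 0 ≤ 9/20 - R := by linarith
  have hp : 0 ≤ w - 7/20 := by linarith
  have hq : 0 ≤ 1 - w := by linarith
  obtain ⟨a, ea⟩ : ∃ a, a = R - 39/100 := ⟨_, rfl⟩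
  obtain ⟨b, eb⟩ : ∃ b, b = 9/20 - R := ⟨_, rfl⟩
  obtain ⟨p, ep⟩ : ∃ p, p = w - 7/20 := ⟨_, rfl⟩
  obtain ⟨q, eq⟩ : ∃ q, q = 1 - w := ⟨_, rfl⟩
  rw [key a b p q ea eb ep eq]
  rw [← ea] at ha
  rw [← eb] at hb
  rw [← ep] at hp
  rw [← eq] at hq
  positivity

set_option maxRecDepth 8000 in
theorem bx2_1 {R w : ℝ} (h1 : 9/20 ≤ R) (h2 : R ≤ 53/100) (h3 : 0 ≤ w) (h4 : w ≤ 7/20) :
    0 ≤ PP (16/25) (833/1000) R w := by
  have key : ∀ a b p q : ℝ, a = R - 9/20 → b = 53/100 - R → p = w - 0 → q = 7/20 - w →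
      PP (16/25) (833/1000) R w =
        (90000000000/117649) * b ^ 3 * q ^ 6 +
        (332111340000/117649) * b ^ 3 * p * q ^ 5 +
        (475919793000/117649) * b ^ 3 * p ^ 2 * q ^ 4 +
        (3103262125515/941192) * b ^ 3 * p ^ 3 * q ^ 3 +
        (8704352850057/3764768) * b ^ 3 * p ^ 4 * q ^ 2 +
        (105599996630181/75295360) * b ^ 3 * p ^ 5 * q +
        (600372370104651/1505907200) * b ^ 3 * p ^ 6 +
        (270000000000/117649) * a * b ^ 2 * q ^ 6 +
        (954338052000/117649) * a * b ^ 2 * p * q ^ 5 +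
        (1252467305400/117649) * a * b ^ 2 * p ^ 2 * q ^ 4 +
        (7081422280713/941192) * a * b ^ 2 * p ^ 3 * q ^ 3 +
        (97406300606367/18823840) * a * b ^ 2 * p ^ 4 * q ^ 2 +
        (1362568553048931/376476800) * a * b ^ 2 * p ^ 5 * q +
        (8538305473299501/7529536000) * a * b ^ 2 * p ^ 6 +
        (270000000000/117649) * a ^ 2 * b * q ^ 6 +
        (911446442400/117649) * a ^ 2 * b * p * q ^ 5 +
        (1073637447480/117649) * a ^ 2 * b * p ^ 2 * q ^ 4 +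
        (24075117301941/4705960) * a ^ 2 * b * p ^ 3 * q ^ 3 +
        (319229509519059/94119200) * a ^ 2 * b * p ^ 4 * q ^ 2 +
        (5701240997606727/1882384000) * a ^ 2 * b * p ^ 5 * q +
        (40387552625380617/37647680000) * a ^ 2 * b * p ^ 6 +
        (90000000000/117649) * a ^ 3 * q ^ 6 +
        (289219730400/117649) * a ^ 3 * p * q ^ 5 +
        (297089935080/117649) * a ^ 3 * p ^ 2 * q ^ 4 +
        (20926410137979/23529800) * a ^ 3 * p ^ 3 * q ^ 3 +
        (249222411513981/470596000) * a ^ 3 * p ^ 4 * q ^ 2 +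
        (7644438287252553/9411920000) * a ^ 3 * p ^ 5 * q +
        (63537278593065063/188238400000) * a ^ 3 * p ^ 6 := by
    intro a b p q ha hb hp hq
    subst ha hb hp hq
    unfold PP
    ring
  have ha : 0 ≤ R - 9/20 := by linarith
  have hb : 0 ≤ 53/100 - R := by linarith
  have hp : 0 ≤ w - 0 := by linarith
  have hq : 0 ≤ 7/20 - w := by linarith
  obtain ⟨a, ea⟩ : ∃ a, a = R - 9/20 := ⟨_, rfl⟩
  obtain ⟨b, eb⟩ : ∃ b, b = 53/100 - R := ⟨_, rfl⟩
  obtain ⟨p, ep⟩ : ∃ p, p = w - 0 := ⟨_, rfl⟩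
  obtain ⟨q, eq⟩ : ∃ q, q = 7/20 - w := ⟨_, rfl⟩
  rw [key a b p q ea eb ep eq]
  rw [← ea] at ha
  rw [← eb] at hb
  rw [← ep] at hp
  rw [← eq] at hq
  positivity

set_option maxRecDepth 8000 in
theorem bx2_2 {R w : ℝ} (h1 : 9/20 ≤ R) (h2 : R ≤ 53/100) (h3 : 7/20 ≤ w) (h4 : w ≤ 1) :
    0 ≤ PP (16/25) (833/1000) R w := by
  have key : ∀ a b p q : ℝ, a = R - 9/20 → b = 53/100 - R → p = w - 7/20 → q = 1 - w →
      PP (16/25) (833/1000) R w =
        (600372370104651/61783155200) * b ^ 3 * q ^ 6 +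
        (318490609205079/3089157760) * b ^ 3 * p * q ^ 5 +
        (73726967393217/154457888) * b ^ 3 * p ^ 2 * q ^ 4 +
        (40816574181585/38614472) * b ^ 3 * p ^ 3 * q ^ 3 +
        (5729379750000/4826809) * b ^ 3 * p ^ 4 * q ^ 2 +
        (3172095000000/4826809) * b ^ 3 * p ^ 5 * q +
        (684000000000/4826809) * b ^ 3 * p ^ 6 +
        (8538305473299501/308915776000) * a * b ^ 2 * q ^ 6 +
        (4788063092880129/15445788800) * a * b ^ 2 * p * q ^ 5 +
        (1142230427628327/772289440) * a * b ^ 2 * p ^ 2 * q ^ 4 +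
        (128049481133547/38614472) * a * b ^ 2 * p ^ 3 * q ^ 3 +
        (18060904050000/4826809) * a * b ^ 2 * p ^ 4 * q ^ 2 +
        (10015101000000/4826809) * a * b ^ 2 * p ^ 5 * q +
        (2157600000000/4826809) * a * b ^ 2 * p ^ 6 +
        (40387552625380617/1544578880000) * a ^ 2 * b * q ^ 6 +
        (24029883254770893/77228944000) * a ^ 2 * b * p * q ^ 5 +
        (5901681870305979/3861447200) * a ^ 2 * b * p ^ 2 * q ^ 4 +
        (669084077379759/193072360) * a ^ 2 * b * p ^ 3 * q ^ 3 +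
        (18950417010000/4826809) * a ^ 2 * b * p ^ 4 * q ^ 2 +
        (10519408200000/4826809) * a ^ 2 * b * p ^ 5 * q +
        (2263200000000/4826809) * a ^ 2 * b * p ^ 6 +
        (63537278593065063/7722894400000) * a ^ 3 * q ^ 6 +
        (40263710546301027/386144720000) * a ^ 3 * p * q ^ 5 +
        (10169168934090261/19307236000) * a ^ 3 * p ^ 2 * q ^ 4 +
        (1164628634486241/965361800) * a ^ 3 * p ^ 3 * q ^ 3 +
        (6618892710000/4826809) * a ^ 3 * p ^ 4 * q ^ 2 +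
        (3676402200000/4826809) * a ^ 3 * p ^ 5 * q +
        (789600000000/4826809) * a ^ 3 * p ^ 6 := by
    intro a b p q ha hb hp hq
    subst ha hb hp hq
    unfold PP
    ring
  have ha : 0 ≤ R - 9/20 := by linarith
  have hb : 0 ≤ 53/100 - R := by linarith
  have hp : 0 ≤ w - 7/20 := by linarith
  have hq : 0 ≤ 1 - w := by linarith
  obtain ⟨a, ea⟩ : ∃ a, a = R - 9/20 := ⟨_, rfl⟩
  obtain ⟨b, eb⟩ : ∃ b, b = 53/100 - R := ⟨_, rfl⟩
  obtain ⟨p, ep⟩ : ∃ p, p = w - 7/20 := ⟨_, rfl⟩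
  obtain ⟨q, eq⟩ : ∃ q, q = 1 - w := ⟨_, rfl⟩
  rw [key a b p q ea eb ep eq]
  rw [← ea] at ha
  rw [← eb] at hb
  rw [← ep] at hp
  rw [← eq] at hq
  positivity

set_option maxRecDepth 8000 in
theorem bx3_1 {R w : ℝ} (h1 : 53/100 ≤ R) (h2 : R ≤ 63/100) (h3 : 0 ≤ w) (h4 : w ≤ 7/20) :
    0 ≤ PP (5929/10000) (87/100) R w := by
  have key : ∀ a b p q : ℝ, a = R - 53/100 → b = 63/100 - R → p = w - 0 → q = 7/20 - w →
      PP (5929/10000) (87/100) R w =
        (52108800000/117649) * b ^ 3 * q ^ 6 +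
        (4734492112848/2941225) * b ^ 3 * p * q ^ 5 +
        (33142472108748/14706125) * b ^ 3 * p ^ 2 * q ^ 4 +
        (6670691477862003/3676531250) * b ^ 3 * p ^ 3 * q ^ 3 +
        (97424377326177717/73530625000) * b ^ 3 * p ^ 4 * q ^ 2 +
        (1237997277738139671/1470612500000) * b ^ 3 * p ^ 5 * q +
        (7148992099097183241/29412250000000) * b ^ 3 * p ^ 6 +
        (156326400000/117649) * a * b ^ 2 * q ^ 6 +
        (13530141618864/2941225) * a * b ^ 2 * p * q ^ 5 +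
        (85431805212564/14706125) * a * b ^ 2 * p ^ 2 * q ^ 4 +
        (14508229341297039/3676531250) * a * b ^ 2 * p ^ 3 * q ^ 3 +
        (211744814031927321/73530625000) * a * b ^ 2 * p ^ 4 * q ^ 2 +
        (3192150521379422223/1470612500000) * a * b ^ 2 * p ^ 5 * q +
        (20426226667855083633/29412250000000) * a * b ^ 2 * p ^ 6 +
        (156326400000/117649) * a ^ 2 * b * q ^ 6 +
        (12839475246384/2941225) * a ^ 2 * b * p * q ^ 5 +
        (71093893956084/14706125) * a ^ 2 * b * p ^ 2 * q ^ 4 +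
        (8891964267098169/3676531250) * a ^ 2 * b * p ^ 3 * q ^ 3 +
        (130105355871275391/73530625000) * a ^ 2 * b * p ^ 4 * q ^ 2 +
        (2668985133693041133/1470612500000) * a ^ 2 * b * p ^ 5 * q +
        (19431155723740152243/29412250000000) * a ^ 2 * b * p ^ 6 +
        (52108800000/117649) * a ^ 3 * q ^ 6 +
        (4043825740368/2941225) * a ^ 3 * p * q ^ 5 +
        (18804560852268/14706125) * a ^ 3 * p ^ 2 * q ^ 4 +
        (1055200150952133/3676531250) * a ^ 3 * p ^ 3 * q ^ 3 +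
        (15815095309796787/73530625000) * a ^ 3 * p ^ 4 * q ^ 2 +
        (715224179927281581/1470612500000) * a ^ 3 * p ^ 5 * q +
        (6155621077776184851/29412250000000) * a ^ 3 * p ^ 6 := by
    intro a b p q ha hb hp hq
    subst ha hb hp hq
    unfold PP
    ring
  have ha : 0 ≤ R - 53/100 := by linarith
  have hb : 0 ≤ 63/100 - R := by linarith
  have hp : 0 ≤ w - 0 := by linarith
  have hq : 0 ≤ 7/20 - w := by linarith
  obtain ⟨a, ea⟩ : ∃ a, a = R - 53/100 := ⟨_, rfl⟩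
  obtain ⟨b, eb⟩ : ∃ b, b = 63/100 - R := ⟨_, rfl⟩
  obtain ⟨p, ep⟩ : ∃ p, p = w - 0 := ⟨_, rfl⟩
  obtain ⟨q, eq⟩ : ∃ q, q = 7/20 - w := ⟨_, rfl⟩
  rw [key a b p q ea eb ep eq]
  rw [← ea] at ha
  rw [← eb] at hb
  rw [← ep] at hp
  rw [← eq] at hq
  positivity

set_option maxRecDepth 8000 in
theorem bx3_2 {R w : ℝ} (h1 : 53/100 ≤ R) (h2 : R ≤ 63/100) (h3 : 7/20 ≤ w) (h4 : w ≤ 1) :
    0 ≤ PP (5929/10000) (87/100) R w := by
  have key : ∀ a b p q : ℝ, a = R - 53/100 → b = 63/100 - R → p = w - 7/20 → q = 1 - w →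
      PP (5929/10000) (87/100) R w =
        (7148992099097183241/1206702250000000) * b ^ 3 * q ^ 6 +
        (3828569711998183389/60335112500000) * b ^ 3 * p * q ^ 5 +
        (882240371461279677/3016755625000) * b ^ 3 * p ^ 2 * q ^ 4 +
        (96920016826877037/150837781250) * b ^ 3 * p ^ 3 * q ^ 3 +
        (17258546648736/24134045) * b ^ 3 * p ^ 4 * q ^ 2 +
        (1894561394304/4826809) * b ^ 3 * p ^ 5 * q +
        (403913472000/4826809) * b ^ 3 * p ^ 6 +
        (20426226667855083633/1206702250000000) * a * b ^ 2 * q ^ 6 +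
        (11579914747028287557/60335112500000) * a * b ^ 2 * p * q ^ 5 +
        (2748744687746112801/3016755625000) * a * b ^ 2 * p ^ 2 * q ^ 4 +
        (305568163266851481/150837781250) * a * b ^ 2 * p ^ 3 * q ^ 3 +
        (54643307204448/24134045) * a * b ^ 2 * p ^ 4 * q ^ 2 +
        (6005024806272/4826809) * a * b ^ 2 * p ^ 5 * q +
        (1278118656000/4826809) * a * b ^ 2 * p ^ 6 +
        (19431155723740152243/1206702250000000) * a ^ 2 * b * q ^ 6 +
        (11698589657775911247/60335112500000) * a ^ 2 * b * p * q ^ 5 +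
        (2856553210373472471/3016755625000) * a ^ 2 * b * p ^ 2 * q ^ 4 +
        (320905603990889751/150837781250) * a ^ 2 * b * p ^ 3 * q ^ 3 +
        (57576771893088/24134045) * a ^ 2 * b * p ^ 4 * q ^ 2 +
        (6330680015232/4826809) * a ^ 2 * b * p ^ 5 * q +
        (1344496896000/4826809) * a ^ 2 * b * p ^ 6 +
        (6155621077776184851/1206702250000000) * a ^ 3 * q ^ 6 +
        (3947973161086064079/60335112500000) * a ^ 3 * p * q ^ 5 +
        (990152970994390347/3016755625000) * a ^ 3 * p ^ 2 * q ^ 4 +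
        (112262413594046307/150837781250) * a ^ 3 * p ^ 3 * q ^ 3 +
        (20192011337376/24134045) * a ^ 3 * p ^ 4 * q ^ 2 +
        (2220216603264/4826809) * a ^ 3 * p ^ 5 * q +
        (470291712000/4826809) * a ^ 3 * p ^ 6 := by
    intro a b p q ha hb hp hq
    subst ha hb hp hq
    unfold PP
    ring
  have ha : 0 ≤ R - 53/100 := by linarith
  have hb : 0 ≤ 63/100 - R := by linarith
  have hp : 0 ≤ w - 7/20 := by linarith
  have hq : 0 ≤ 1 - w := by linarith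
  obtain ⟨a, ea⟩ : ∃ a, a = R - 53/100 := ⟨_, rfl⟩
  obtain ⟨b, eb⟩ : ∃ b, b = 63/100 - R := ⟨_, rfl⟩
  obtain ⟨p, ep⟩ : ∃ p, p = w - 7/20 := ⟨_, rfl⟩
  obtain ⟨q, eq⟩ : ∃ q, q = 1 - w := ⟨_, rfl⟩
  rw [key a b p q ea eb ep eq]
  rw [← ea] at ha
  rw [← eb] at hb
  rw [← ep] at hp
  rw [← eq] at hq
  positivity

set_option maxRecDepth 8000 in
theorem bx4_1 {R w : ℝ} (h1 : 63/100 ≤ R) (h2 : R ≤ 77/100) (h3 : 0 ≤ w) (h4 : w ≤ 7/20) :
    0 ≤ PP (5329/10000) (927/1000) R w := by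
  have key : ∀ a b p q : ℝ, a = R - 63/100 → b = 77/100 - R → p = w - 0 → q = 7/20 - w →
      PP (5329/10000) (927/1000) R w =
        (7473600000000/40353607) * b ^ 3 * q ^ 6 +
        (26971374055464/40353607) * b ^ 3 * p * q ^ 5 +
        (187842289995414/201768035) * b ^ 3 * p ^ 2 * q ^ 4 +
        (77515913715041493/100884017500) * b ^ 3 * p ^ 3 * q ^ 3 +
        (1201538863593973827/2017680350000) * b ^ 3 * p ^ 4 * q ^ 2 +
        (15597046502989585101/40353607000000) * b ^ 3 * p ^ 5 * q +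
        (89348286507529926771/807072140000000) * b ^ 3 * p ^ 6 +
        (22420800000000/40353607) * a * b ^ 2 * q ^ 6 +
        (76210973924376/40353607) * a * b ^ 2 * p * q ^ 5 +
        (466252859406426/201768035) * a * b ^ 2 * p ^ 2 * q ^ 4 +
        (157108460988044241/100884017500) * a * b ^ 2 * p ^ 3 * q ^ 3 +
        (2527343916703505799/2017680350000) * a * b ^ 2 * p ^ 4 * q ^ 2 +
        (40121252612735096037/40353607000000) * a * b ^ 2 * p ^ 5 * q +
        (256614541476499504827/807072140000000) * a * b ^ 2 * p ^ 6 +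
        (22420800000000/40353607) * a ^ 2 * b * q ^ 6 +
        (71345161922136/40353607) * a ^ 2 * b * p * q ^ 5 +
        (365766239562186/201768035) * a ^ 2 * b * p ^ 2 * q ^ 4 +
        (79629729603366639/100884017500) * a ^ 2 * b * p ^ 3 * q ^ 3 +
        (1432020467242983321/2017680350000) * a ^ 2 * b * p ^ 4 * q ^ 2 +
        (33463763371065797823/40353607000000) * a ^ 2 * b * p ^ 5 * q +
        (245831708490290599233/807072140000000) * a ^ 2 * b * p ^ 6 +
        (7473600000000/40353607) * a ^ 3 * q ^ 6 +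
        (22105562053224/40353607) * a ^ 3 * p * q ^ 5 +
        (87355670151174/201768035) * a ^ 3 * p ^ 2 * q ^ 4 +
        (59281502523627/100884017500) * a ^ 3 * p ^ 3 * q ^ 3 +
        (107077281847681053/2017680350000) * a ^ 3 * p ^ 4 * q ^ 2 +
        (8950761541605273039/40353607000000) * a ^ 3 * p ^ 5 * q +
        (78614005402555961169/807072140000000) * a ^ 3 * p ^ 6 := by
    intro a b p q ha hb hp hq
    subst ha hb hp hq
    unfold PP
    ring
  have ha : 0 ≤ R - 63/100 := by linarith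
  have hb : 0 ≤ 77/100 - R := by linarith
  have hp : 0 ≤ w - 0 := by linarith
  have hq : 0 ≤ 7/20 - w := by linarith
  obtain ⟨a, ea⟩ : ∃ a, a = R - 63/100 := ⟨_, rfl⟩
  obtain ⟨b, eb⟩ : ∃ b, b = 77/100 - R := ⟨_, rfl⟩
  obtain ⟨p, ep⟩ : ∃ p, p = w - 0 := ⟨_, rfl⟩
  obtain ⟨q, eq⟩ : ∃ q, q = 7/20 - w := ⟨_, rfl⟩
  rw [key a b p q ea eb ep eq]
  rw [← ea] at ha
  rw [← eb] at hb
  rw [← ep] at hp
  rw [← eq] at hq
  positivity

set_option maxRecDepth 8000 in
theorem bx4_2 {R w : ℝ} (h1 : 63/100 ≤ R) (h2 : R ≤ 77/100) (h3 : 7/20 ≤ w) (h4 : w ≤ 1) :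
    0 ≤ PP (5329/10000) (927/1000) R w := by
  have key : ∀ a b p q : ℝ, a = R - 63/100 → b = 77/100 - R → p = w - 7/20 → q = 1 - w →
      PP (5329/10000) (927/1000) R w =
        (89348286507529926771/33111909740000000) * b ^ 3 * q ^ 6 +
        (47618302072330707759/1655595487000000) * b ^ 3 * p * q ^ 5 +
        (10805639650326682587/82779774350000) * b ^ 3 * p ^ 2 * q ^ 4 +
        (1169934385188141747/4138988717500) * b ^ 3 * p ^ 3 * q ^ 3 +
        (513737155274400/1655595487) * b ^ 3 * p ^ 4 * q ^ 2 +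
        (278679104208000/1655595487) * b ^ 3 * p ^ 5 * q +
        (58536864000000/1655595487) * b ^ 3 * p ^ 6 +
        (256614541476499504827/33111909740000000) * a * b ^ 2 * q ^ 6 +
        (145444423556205825783/1655595487000000) * a * b ^ 2 * p * q ^ 5 +
        (34050159678420485919/82779774350000) * a * b ^ 2 * p ^ 2 * q ^ 4 +
        (3731327080977447039/4138988717500) * a * b ^ 2 * p ^ 3 * q ^ 3 +
        (1644635887029600/1655595487) * a * b ^ 2 * p ^ 4 * q ^ 2 +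
        (892647959472000/1655595487) * a * b ^ 2 * p ^ 5 * q +
        (186957984000000/1655595487) * a * b ^ 2 * p ^ 6 +
        (245831708490290599233/33111909740000000) * a ^ 2 * b * q ^ 6 +
        (148565903873984031957/1655595487000000) * a ^ 2 * b * p * q ^ 5 +
        (35802907493860128801/82779774350000) * a ^ 2 * b * p ^ 2 * q ^ 4 +
        (3963394319198013081/4138988717500) * a ^ 2 * b * p ^ 3 * q ^ 3 +
        (1751209776885600/1655595487) * a ^ 2 * b * p ^ 4 * q ^ 2 +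
        (950291218992000/1655595487) * a ^ 2 * b * p ^ 5 * q +
        (198305376000000/1655595487) * a ^ 2 * b * p ^ 6 +
        (6047231184811997013/2547069980000000) * a ^ 3 * q ^ 6 +
        (3904660795323815577/127353499000000) * a ^ 3 * p * q ^ 5 +
        (966258463840274361/6367674950000) * a ^ 3 * p ^ 2 * q ^ 4 +
        (107857167237143241/318383747500) * a ^ 3 * p ^ 3 * q ^ 3 +
        (47716234240800/127353499) * a ^ 3 * p ^ 4 * q ^ 2 +
        (25870951056000/127353499) * a ^ 3 * p ^ 5 * q +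
        (5375712000000/127353499) * a ^ 3 * p ^ 6 := by
    intro a b p q ha hb hp hq
    subst ha hb hp hq
    unfold PP
    ring
  have ha : 0 ≤ R - 63/100 := by linarith
  have hb : 0 ≤ 77/100 - R := by linarith
  have hp : 0 ≤ w - 7/20 := by linarith
  have hq : 0 ≤ 1 - w := by linarith
  obtain ⟨a, ea⟩ : ∃ a, a = R - 63/100 := ⟨_, rfl⟩
  obtain ⟨b, eb⟩ : ∃ b, b = 77/100 - R := ⟨_, rfl⟩
  obtain ⟨p, ep⟩ : ∃ p, p = w - 7/20 := ⟨_, rfl⟩
  obtain ⟨q, eq⟩ : ∃ q, q = 1 - w := ⟨_, rfl⟩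
  rw [key a b p q ea eb ep eq]
  rw [← ea] at ha
  rw [← eb] at hb
  rw [← ep] at hp
  rw [← eq] at hq
  positivity

set_option maxRecDepth 8000 in
theorem bx5_1 {R w : ℝ} (h1 : 77/100 ≤ R) (h2 : R ≤ 24/25) (h3 : 0 ≤ w) (h4 : w ≤ 3/10) :
    0 ≤ PP (289/625) (1011/1000) R w := by
  have key : ∀ a b p q : ℝ, a = R - 77/100 → b = 24/25 - R → p = w - 0 → q = 3/10 - w →
      PP (289/625) (1011/1000) R w =
        (358400000000/1666737) * b ^ 3 * q ^ 6 +
        (17176024544/20577) * b ^ 3 * p * q ^ 5 +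
        (3558900785104/2777895) * b ^ 3 * p ^ 2 * q ^ 4 +
        (1153346034971452/1041710625) * b ^ 3 * p ^ 3 * q ^ 3 +
        (421005911519494/578728125) * b ^ 3 * p ^ 4 * q ^ 2 +
        (3309646480265237/8680921875) * b ^ 3 * p ^ 5 * q +
        (25737744095547659/260427656250) * b ^ 3 * p ^ 6 +
        (358400000000/555579) * a * b ^ 2 * q ^ 6 +
        (1315139083936/555579) * a * b ^ 2 * p * q ^ 5 +
        (9063551220688/2777895) * a * b ^ 2 * p ^ 2 * q ^ 4 +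
        (829610780667896/347236875) * a * b ^ 2 * p ^ 3 * q ^ 3 +
        (2569433190137708/1736184375) * a * b ^ 2 * p ^ 4 * q ^ 2 +
        (7837875881125328/8680921875) * a * b ^ 2 * p ^ 5 * q +
        (3891516247683572/14468203125) * a * b ^ 2 * p ^ 6 +
        (358400000000/555579) * a ^ 2 * b * q ^ 6 +
        (1235644928000/555579) * a ^ 2 * b * p * q ^ 5 +
        (1476241484800/555579) * a ^ 2 * b * p ^ 2 * q ^ 4 +
        (164676215297536/115745625) * a ^ 2 * b * p ^ 3 * q ^ 3 +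
        (1318384052272384/1736184375) * a ^ 2 * b * p ^ 4 * q ^ 2 +
        (5730330173753344/8680921875) * a ^ 2 * b * p ^ 5 * q +
        (10514871652045568/43404609375) * a ^ 2 * b * p ^ 6 +
        (358400000000/1666737) * a ^ 3 * q ^ 6 +
        (384258506752/555579) * a ^ 3 * p * q ^ 5 +
        (1876556988416/2777895) * a ^ 3 * p ^ 2 * q ^ 4 +
        (146983826857984/1041710625) * a ^ 3 * p ^ 3 * q ^ 3 +
        (13313283436544/1736184375) * a ^ 3 * p ^ 4 * q ^ 2 +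
        (1206807176495104/8680921875) * a ^ 3 * p ^ 5 * q +
        (9406313187364864/130213828125) * a ^ 3 * p ^ 6 := by
    intro a b p q ha hb hp hq
    subst ha hb hp hq
    unfold PP
    ring
  have ha : 0 ≤ R - 77/100 := by linarith
  have hb : 0 ≤ 24/25 - R := by linarith
  have hp : 0 ≤ w - 0 := by linarith
  have hq : 0 ≤ 3/10 - w := by linarith
  obtain ⟨a, ea⟩ : ∃ a, a = R - 77/100 := ⟨_, rfl⟩
  obtain ⟨b, eb⟩ : ∃ b, b = 24/25 - R := ⟨_, rfl⟩
  obtain ⟨p, ep⟩ : ∃ p, p = w - 0 := ⟨_, rfl⟩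
  obtain ⟨q, eq⟩ : ∃ q, q = 3/10 - w := ⟨_, rfl⟩
  rw [key a b p q ea eb ep eq]
  rw [← ea] at ha
  rw [← eb] at hb
  rw [← ep] at hp
  rw [← eq] at hq
  positivity

set_option maxRecDepth 8000 in
theorem bx5_2 {R w : ℝ} (h1 : 77/100 ≤ R) (h2 : R ≤ 24/25) (h3 : 3/10 ≤ w) (h4 : w ≤ 1) :
    0 ≤ PP (289/625) (1011/1000) R w := by
  have key : ∀ a b p q : ℝ, a = R - 77/100 → b = 24/25 - R → p = w - 3/10 → q = 1 - w →
      PP (289/625) (1011/1000) R w =
        (11030461755234711/18012377031250) * b ^ 3 * q ^ 6 +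
        (12131984069673711/1801237703125) * b ^ 3 * p * q ^ 5 +
        (12512865190039374/360247540625) * b ^ 3 * p ^ 2 * q ^ 4 +
        (5851232540739372/72049508125) * b ^ 3 * p ^ 3 * q ^ 3 +
        (10646886393600/115279213) * b ^ 3 * p ^ 4 * q ^ 2 +
        (5896641984000/115279213) * b ^ 3 * p ^ 5 * q +
        (1237056000000/115279213) * b ^ 3 * p ^ 6 +
        (105070938687456444/63043319609375) * a * b ^ 2 * q ^ 6 +
        (255688361246193888/12608663921875) * a * b ^ 2 * p * q ^ 5 +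
        (277723839221017692/2521732784375) * a * b ^ 2 * p ^ 2 * q ^ 4 +
        (131994621645971976/504346556875) * a * b ^ 2 * p ^ 3 * q ^ 3 +
        (240920277254400/806954491) * a * b ^ 2 * p ^ 4 * q ^ 2 +
        (133431433536000/806954491) * a * b ^ 2 * p ^ 5 * q +
        (27849600000000/806954491) * a * b ^ 2 * p ^ 6 +
        (94633844868410112/63043319609375) * a ^ 2 * b * q ^ 6 +
        (258198445824820224/12608663921875) * a ^ 2 * b * p * q ^ 5 +
        (294370005521346816/2521732784375) * a ^ 2 * b * p ^ 2 * q ^ 4 +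
        (141747246208654848/504346556875) * a ^ 2 * b * p ^ 3 * q ^ 3 +
        (258977748480000/806954491) * a ^ 2 * b * p ^ 4 * q ^ 2 +
        (143282284800000/806954491) * a ^ 2 * b * p ^ 5 * q +
        (29721024000000/806954491) * a ^ 2 * b * p ^ 6 +
        (28218939562094592/63043319609375) * a ^ 3 * q ^ 6 +
        (87532807541981184/12608663921875) * a ^ 3 * p * q ^ 5 +
        (104302112281030656/2521732784375) * a ^ 3 * p ^ 2 * q ^ 4 +
        (50725894492397568/504346556875) * a ^ 3 * p ^ 3 * q ^ 3 +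
        (92585675980800/806954491) * a ^ 3 * p ^ 4 * q ^ 2 +
        (51127345152000/806954491) * a ^ 3 * p ^ 5 * q +
        (10530816000000/806954491) * a ^ 3 * p ^ 6 := by
    intro a b p q ha hb hp hq
    subst ha hb hp hq
    unfold PP
    ring
  have ha : 0 ≤ R - 77/100 := by linarith
  have hb : 0 ≤ 24/25 - R := by linarith
  have hp : 0 ≤ w - 3/10 := by linarith
  have hq : 0 ≤ 1 - w := by linarith
  obtain ⟨a, ea⟩ : ∃ a, a = R - 77/100 := ⟨_, rfl⟩
  obtain ⟨b, eb⟩ : ∃ b, b = 24/25 - R := ⟨_, rfl⟩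
  obtain ⟨p, ep⟩ : ∃ p, p = w - 3/10 := ⟨_, rfl⟩
  obtain ⟨q, eq⟩ : ∃ q, q = 1 - w := ⟨_, rfl⟩
  rw [key a b p q ea eb ep eq]
  rw [← ea] at ha
  rw [← eb] at hb
  rw [← ep] at hp
  rw [← eq] at hq
  positivity

set_option maxRecDepth 8000 in
theorem bx6_1 {R w : ℝ} (h1 : 24/25 ≤ R) (h2 : R ≤ 61/50) (h3 : 0 ≤ w) (h4 : w ≤ 3/10) :
    0 ≤ PP (3721/10000) (229/200) R w := by
  have key : ∀ a b p q : ℝ, a = R - 24/25 → b = 61/50 - R → p = w - 0 → q = 3/10 - w →
      PP (3721/10000) (229/200) R w =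
        (4025000000/41067) * b ^ 3 * q ^ 6 +
        (5148192640/13689) * b ^ 3 * p * q ^ 5 +
        (101600427712/177957) * b ^ 3 * p ^ 2 * q ^ 4 +
        (33826229617088/66733875) * b ^ 3 * p ^ 3 * q ^ 3 +
        (3109834539616/8555625) * b ^ 3 * p ^ 4 * q ^ 2 +
        (112974001852928/556115625) * b ^ 3 * p ^ 5 * q +
        (443319841209248/8341734375) * b ^ 3 * p ^ 6 +
        (4025000000/13689) * a * b ^ 2 * q ^ 6 +
        (1606018400/1521) * a * b ^ 2 * p * q ^ 5 +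
        (83520372160/59319) * a * b ^ 2 * p ^ 2 * q ^ 4 +
        (23209001583416/22244625) * a * b ^ 2 * p ^ 3 * q ^ 3 +
        (709949330204/950625) * a * b ^ 2 * p ^ 4 * q ^ 2 +
        (92888605976096/185371875) * a * b ^ 2 * p ^ 5 * q +
        (415461863298836/2780578125) * a * b ^ 2 * p ^ 6 +
        (4025000000/13689) * a ^ 2 * b * q ^ 6 +
        (13408366195/13689) * a ^ 2 * b * p * q ^ 5 +
        (386737636387/355914) * a ^ 2 * b * p ^ 2 * q ^ 4 +
        (48482640012673/88978500) * a ^ 2 * b * p ^ 3 * q ^ 3 +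
        (26996354542841/68445000) * a ^ 2 * b * p ^ 4 * q ^ 2 +
        (438012085810607/1112231250) * a ^ 2 * b * p ^ 5 * q +
        (1041671178198347/7414875000) * a ^ 2 * b * p ^ 6 +
        (4025000000/41067) * a ^ 3 * q ^ 6 +
        (4102393235/13689) * a ^ 3 * p * q ^ 5 +
        (29605419617/118638) * a ^ 3 * p ^ 2 * q ^ 4 +
        (588057149159/66733875) * a ^ 3 * p ^ 3 * q ^ 3 +
        (204128687401/17111250) * a ^ 3 * p ^ 4 * q ^ 2 +
        (286096891583563/2965950000) * a ^ 3 * p ^ 5 * q +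
        (11838899775449323/266935500000) * a ^ 3 * p ^ 6 := by
    intro a b p q ha hb hp hq
    subst ha hb hp hq
    unfold PP
    ring
  have ha : 0 ≤ R - 24/25 := by linarith
  have hb : 0 ≤ 61/50 - R := by linarith
  have hp : 0 ≤ w - 0 := by linarith
  have hq : 0 ≤ 3/10 - w := by linarith
  obtain ⟨a, ea⟩ : ∃ a, a = R - 24/25 := ⟨_, rfl⟩
  obtain ⟨b, eb⟩ : ∃ b, b = 61/50 - R := ⟨_, rfl⟩
  obtain ⟨p, ep⟩ : ∃ p, p = w - 0 := ⟨_, rfl⟩
  obtain ⟨q, eq⟩ : ∃ q, q = 3/10 - w := ⟨_, rfl⟩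
  rw [key a b p q ea eb ep eq]
  rw [← ea] at ha
  rw [← eb] at hb
  rw [← ep] at hp
  rw [← eq] at hq
  positivity

set_option maxRecDepth 8000 in
theorem bx6_2 {R w : ℝ} (h1 : 24/25 ≤ R) (h2 : R ≤ 61/50) (h3 : 3/10 ≤ w) (h4 : w ≤ 1) :
    0 ≤ PP (3721/10000) (229/200) R w := by
  have key : ∀ a b p q : ℝ, a = R - 24/25 → b = 61/50 - R → p = w - 3/10 → q = 1 - w →
      PP (3721/10000) (229/200) R w =
        (1329959523627744/4038669578125) * b ^ 3 * q ^ 6 +
        (2947384055599488/807733915625) * b ^ 3 * p * q ^ 5 +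
        (2939181296215392/161546783125) * b ^ 3 * p ^ 2 * q ^ 4 +
        (1330418524445376/32309356625) * b ^ 3 * p ^ 3 * q ^ 3 +
        (11720306030400/258474853) * b ^ 3 * p ^ 4 * q ^ 2 +
        (6358540176000/258474853) * b ^ 3 * p ^ 5 * q +
        (1295583000000/258474853) * b ^ 3 * p ^ 6 +
        (3739156769689524/4038669578125) * a * b ^ 2 * q ^ 6 +
        (9104644902264048/807733915625) * a * b ^ 2 * p * q ^ 5 +
        (9491244053009532/161546783125) * a * b ^ 2 * p ^ 2 * q ^ 4 +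
        (4349299215085896/32309356625) * a * b ^ 2 * p ^ 3 * q ^ 3 +
        (38298414006000/258474853) * a * b ^ 2 * p ^ 4 * q ^ 2 +
        (20749867440000/258474853) * a * b ^ 2 * p ^ 5 * q +
        (4195122000000/258474853) * a * b ^ 2 * p ^ 6 +
        (28125121811355369/32309356625000) * a ^ 2 * b * q ^ 6 +
        (9463434004666311/807733915625) * a ^ 2 * b * p * q ^ 5 +
        (82054105892522217/1292374265000) * a ^ 2 * b * p ^ 2 * q ^ 4 +
        (18957160188158463/129237426500) * a ^ 2 * b * p ^ 3 * q ^ 3 +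
        (41598669190200/258474853) * a ^ 2 * b * p ^ 4 * q ^ 2 +
        (22480238238000/258474853) * a ^ 2 * b * p ^ 5 * q +
        (4503495000000/258474853) * a ^ 2 * b * p ^ 6 +
        (35516699326347969/129237426500000) * a ^ 3 * q ^ 6 +
        (53009294482931469/12923742650000) * a ^ 3 * p * q ^ 5 +
        (3709305644558781/161546783125) * a ^ 3 * p ^ 2 * q ^ 4 +
        (3442865452703811/64618713250) * a ^ 3 * p ^ 3 * q ^ 3 +
        (15020561214600/258474853) * a ^ 3 * p ^ 4 * q ^ 2 +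
        (8088910974000/258474853) * a ^ 3 * p ^ 5 * q +
        (1603956000000/258474853) * a ^ 3 * p ^ 6 := by
    intro a b p q ha hb hp hq
    subst ha hb hp hq
    unfold PP
    ring
  have ha : 0 ≤ R - 24/25 := by linarith
  have hb : 0 ≤ 61/50 - R := by linarith
  have hp : 0 ≤ w - 3/10 := by linarith
  have hq : 0 ≤ 1 - w := by linarith
  obtain ⟨a, ea⟩ : ∃ a, a = R - 24/25 := ⟨_, rfl⟩
  obtain ⟨b, eb⟩ : ∃ b, b = 61/50 - R := ⟨_, rfl⟩
  obtain ⟨p, ep⟩ : ∃ p, p = w - 3/10 := ⟨_, rfl⟩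
  obtain ⟨q, eq⟩ : ∃ q, q = 1 - w := ⟨_, rfl⟩
  rw [key a b p q ea eb ep eq]
  rw [← ea] at ha
  rw [← eb] at hb
  rw [← ep] at hp
  rw [← eq] at hq
  positivity

set_option maxRecDepth 8000 in
theorem bx7_1 {R w : ℝ} (h1 : 61/50 ≤ R) (h2 : R ≤ 8/5) (h3 : 0 ≤ w) (h4 : w ≤ 1/5) :
    0 ≤ PP (2809/10000) (277/200) R w := by
  have key : ∀ a b p q : ℝ, a = R - 61/50 → b = 8/5 - R → p = w - 0 → q = 1/5 - w →
      PP (2809/10000) (277/200) R w =
        (2808984375/6859) * b ^ 3 * q ^ 6 +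
        (400625939205/219488) * b ^ 3 * p * q ^ 5 +
        (363877846251/109744) * b ^ 3 * p ^ 2 * q ^ 4 +
        (44722771645029/13718000) * b ^ 3 * p ^ 3 * q ^ 3 +
        (33610284026487/17147500) * b ^ 3 * p ^ 4 * q ^ 2 +
        (31704107360199/42868750) * b ^ 3 * p ^ 5 * q +
        (14926125779466/107171875) * b ^ 3 * p ^ 6 +
        (8426953125/6859) * a * b ^ 2 * q ^ 6 +
        (1145149324005/219488) * a * b ^ 2 * p * q ^ 5 +
        (965229722811/109744) * a * b ^ 2 * p ^ 2 * q ^ 4 +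
        (42861275545509/5487200) * a * b ^ 2 * p ^ 3 * q ^ 3 +
        (29262749106687/6859000) * a * b ^ 2 * p ^ 4 * q ^ 2 +
        (6815344867416/4286875) * a * b ^ 2 * p ^ 5 * q +
        (6997556462463/21434375) * a * b ^ 2 * p ^ 6 +
        (8426953125/6859) * a ^ 2 * b * q ^ 6 +
        (33881483025/6859) * a ^ 2 * b * p * q ^ 5 +
        (51847280310/6859) * a ^ 2 * b * p ^ 2 * q ^ 4 +
        (195887440917/34295) * a ^ 2 * b * p ^ 3 * q ^ 3 +
        (440305230069/171475) * a ^ 2 * b * p ^ 4 * q ^ 2 +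
        (807171404496/857375) * a ^ 2 * b * p ^ 5 * q +
        (1009437690978/4286875) * a ^ 2 * b * p ^ 6 +
        (2808984375/6859) * a ^ 3 * q ^ 6 +
        (10615127250/6859) * a ^ 3 * p * q ^ 5 +
        (14262788025/6859) * a ^ 3 * p ^ 2 * q ^ 4 +
        (7973113524/6859) * a ^ 3 * p ^ 3 * q ^ 3 +
        (9097875933/34295) * a ^ 3 * p ^ 4 * q ^ 2 +
        (16156945242/171475) * a ^ 3 * p ^ 5 * q +
        (42087658731/857375) * a ^ 3 * p ^ 6 := by
    intro a b p q ha hb hp hq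
    subst ha hb hp hq
    unfold PP
    ring
  have ha : 0 ≤ R - 61/50 := by linarith
  have hb : 0 ≤ 8/5 - R := by linarith
  have hp : 0 ≤ w - 0 := by linarith
  have hq : 0 ≤ 1/5 - w := by linarith
  obtain ⟨a, ea⟩ : ∃ a, a = R - 61/50 := ⟨_, rfl⟩
  obtain ⟨b, eb⟩ : ∃ b, b = 8/5 - R := ⟨_, rfl⟩
  obtain ⟨p, ep⟩ : ∃ p, p = w - 0 := ⟨_, rfl⟩
  obtain ⟨q, eq⟩ : ∃ q, q = 1/5 - w := ⟨_, rfl⟩
  rw [key a b p q ea eb ep eq]
  rw [← ea] at ha
  rw [← eb] at hb
  rw [← ep] at hp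
  rw [← eq] at hq
  positivity

set_option maxRecDepth 8000 in
theorem bx7_2 {R w : ℝ} (h1 : 61/50 ≤ R) (h2 : R ≤ 8/5) (h3 : 1/5 ≤ w) (h4 : w ≤ 1) :
    0 ≤ PP (2809/10000) (277/200) R w := by
  have key : ∀ a b p q : ℝ, a = R - 61/50 → b = 8/5 - R → p = w - 1/5 → q = 1 - w →
      PP (2809/10000) (277/200) R w =
        (7463062889733/219488000000) * b ^ 3 * q ^ 6 +
        (13074269978199/43897600000) * b ^ 3 * p * q ^ 5 +
        (10322987298987/4389760000) * b ^ 3 * p ^ 2 * q ^ 4 +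
        (2914228278627/438976000) * b ^ 3 * p ^ 3 * q ^ 3 +
        (106688697675/14047232) * b ^ 3 * p ^ 4 * q ^ 2 +
        (60909248625/14047232) * b ^ 3 * p ^ 5 * q +
        (6137203125/7023616) * b ^ 3 * p ^ 6 +
        (6997556462463/87795200000) * a * b ^ 2 * q ^ 6 +
        (7361979652557/8779520000) * a * b ^ 2 * p * q ^ 5 +
        (27181947801999/3511808000) * a * b ^ 2 * p ^ 2 * q ^ 4 +
        (7858388157549/351180800) * a * b ^ 2 * p ^ 3 * q ^ 3 +
        (710653214475/28094464) * a * b ^ 2 * p ^ 4 * q ^ 2 +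
        (101189572125/7023616) * a * b ^ 2 * p ^ 5 * q +
        (80417859375/28094464) * a * b ^ 2 * p ^ 6 +
        (504718845489/8779520000) * a ^ 2 * b * q ^ 6 +
        (706985131971/877952000) * a ^ 2 * b * p * q ^ 5 +
        (3021510477927/351180800) * a ^ 2 * b * p ^ 2 * q ^ 4 +
        (443079518181/17559040) * a ^ 2 * b * p ^ 3 * q ^ 3 +
        (393263187375/14047232) * a ^ 2 * b * p ^ 4 * q ^ 2 +
        (111529899375/7023616) * a ^ 2 * b * p ^ 5 * q +
        (43594640625/14047232) * a ^ 2 * b * p ^ 6 +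
        (42087658731/3511808000) * a ^ 3 * q ^ 6 +
        (93949085709/351180800) * a ^ 3 * p * q ^ 5 +
        (453741991053/140472320) * a ^ 3 * p ^ 2 * q ^ 4 +
        (66865039779/7023616) * a ^ 3 * p ^ 3 * q ^ 3 +
        (289250555625/28094464) * a ^ 3 * p ^ 4 * q ^ 2 +
        (81589903125/14047232) * a ^ 3 * p ^ 5 * q +
        (31320234375/28094464) * a ^ 3 * p ^ 6 := by
    intro a b p q ha hb hp hq
    subst ha hb hp hq
    unfold PP
    ring
  have ha : 0 ≤ R - 61/50 := by linarith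
  have hb : 0 ≤ 8/5 - R := by linarith
  have hp : 0 ≤ w - 1/5 := by linarith
  have hq : 0 ≤ 1 - w := by linarith
  obtain ⟨a, ea⟩ : ∃ a, a = R - 61/50 := ⟨_, rfl⟩
  obtain ⟨b, eb⟩ : ∃ b, b = 8/5 - R := ⟨_, rfl⟩
  obtain ⟨p, ep⟩ : ∃ p, p = w - 1/5 := ⟨_, rfl⟩
  obtain ⟨q, eq⟩ : ∃ q, q = 1 - w := ⟨_, rfl⟩
  rw [key a b p q ea eb ep eq]
  rw [← ea] at ha
  rw [← eb] at hb
  rw [← ep] at hp
  rw [← eq] at hq
  positivity

set_option maxRecDepth 8000 in
theorem bx8_1 {R w : ℝ} (h1 : 8/5 ≤ R) (h2 : R ≤ 19/10) (h3 : 0 ≤ w) (h4 : w ≤ 7/20) :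
    0 ≤ PP (7569/40000) (1637/1000) R w := by
  have key : ∀ a b p q : ℝ, a = R - 8/5 → b = 19/10 - R → p = w - 0 → q = 7/20 - w →
      PP (7569/40000) (1637/1000) R w =
        (14825600000/453789) * b ^ 3 * q ^ 6 +
        (32498253824/324135) * b ^ 3 * p * q ^ 5 +
        (1166588231168/11344725) * b ^ 3 * p ^ 2 * q ^ 4 +
        (33999853041536/283618125) * b ^ 3 * p ^ 3 * q ^ 3 +
        (278809718326816/1418090625) * b ^ 3 * p ^ 4 * q ^ 2 +
        (1122149095131712/7090453125) * b ^ 3 * p ^ 5 * q +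
        (521348374415296/11817421875) * b ^ 3 * p ^ 6 +
        (14825600000/151263) * a * b ^ 2 * q ^ 6 +
        (209149828864/756315) * a * b ^ 2 * p * q ^ 5 +
        (798055800064/3781575) * a * b ^ 2 * p ^ 2 * q ^ 4 +
        (23015732712944/94539375) * a * b ^ 2 * p ^ 3 * q ^ 3 +
        (260727880019524/472696875) * a * b ^ 2 * p ^ 4 * q ^ 2 +
        (1155120374454208/2363484375) * a * b ^ 2 * p ^ 5 * q +
        (236944300183606/1688203125) * a * b ^ 2 * p ^ 6 +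
        (14825600000/151263) * a ^ 2 * b * q ^ 6 +
        (63306589448/252105) * a ^ 2 * b * p * q ^ 5 +
        (137301381598/1260525) * a ^ 2 * b * p ^ 2 * q ^ 4 +
        (23827905855277/189078750) * a ^ 2 * b * p ^ 3 * q ^ 3 +
        (280886853999509/540225000) * a ^ 2 * b * p ^ 4 * q ^ 2 +
        (4811013430087663/9453937500) * a ^ 2 * b * p ^ 5 * q +
        (3543875281950481/23634843750) * a ^ 2 * b * p ^ 6 +
        (14825600000/453789) * a ^ 3 * q ^ 6 +
        (169797595208/2268945) * a ^ 3 * p * q ^ 5 +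
        (8133265358/11344725) * a ^ 3 * p ^ 2 * q ^ 4 +
        (789340010279/283618125) * a ^ 3 * p ^ 3 * q ^ 3 +
        (939514506729541/5672362500) * a ^ 3 * p ^ 4 * q ^ 2 +
        (5796813044559923/32413500000) * a ^ 3 * p ^ 5 * q +
        (81377405962328977/1512630000000) * a ^ 3 * p ^ 6 := by
    intro a b p q ha hb hp hq
    subst ha hb hp hq
    unfold PP
    ring
  have ha : 0 ≤ R - 8/5 := by linarith
  have hb : 0 ≤ 19/10 - R := by linarith
  have hp : 0 ≤ w - 0 := by linarith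
  have hq : 0 ≤ 7/20 - w := by linarith
  obtain ⟨a, ea⟩ : ∃ a, a = R - 8/5 := ⟨_, rfl⟩
  obtain ⟨b, eb⟩ : ∃ b, b = 19/10 - R := ⟨_, rfl⟩
  obtain ⟨p, ep⟩ : ∃ p, p = w - 0 := ⟨_, rfl⟩
  obtain ⟨q, eq⟩ : ∃ q, q = 7/20 - w := ⟨_, rfl⟩
  rw [key a b p q ea eb ep eq]
  rw [← ea] at ha
  rw [← eb] at hb
  rw [← ep] at hp
  rw [← eq] at hq
  positivity

set_option maxRecDepth 8000 in
theorem bx8_2 {R w : ℝ} (h1 : 8/5 ≤ R) (h2 : R ≤ 19/10) (h3 : 7/20 ≤ w) (h4 : w ≤ 1) :
    0 ≤ PP (7569/40000) (1637/1000) R w := by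
  have key : ∀ a b p q : ℝ, a = R - 8/5 → b = 19/10 - R → p = w - 7/20 → q = 1 - w →
      PP (7569/40000) (1637/1000) R w =
        (3649438620907072/3393850078125) * b ^ 3 * q ^ 6 +
        (22949144721189056/2036310046875) * b ^ 3 * p * q ^ 5 +
        (18675843891714272/407262009375) * b ^ 3 * p ^ 2 * q ^ 4 +
        (7083906961310848/81452401875) * b ^ 3 * p ^ 3 * q ^ 3 +
        (3601820631040/43441281) * b ^ 3 * p ^ 4 * q ^ 2 +
        (1800924108800/43441281) * b ^ 3 * p ^ 5 * q +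
        (1000485760000/130323843) * b ^ 3 * p ^ 6 +
        (11610270708996694/3393850078125) * a * b ^ 2 * q ^ 6 +
        (24790077562941104/678770015625) * a * b ^ 2 * p * q ^ 5 +
        (20256876953380508/135754003125) * a * b ^ 2 * p ^ 2 * q ^ 4 +
        (2549749480155184/9050266875) * a * b ^ 2 * p ^ 3 * q ^ 3 +
        (11561282336960/43441281) * a * b ^ 2 * p ^ 4 * q ^ 2 +
        (5759814323200/43441281) * a * b ^ 2 * p ^ 5 * q +
        (352176640000/14480427) * a * b ^ 2 * p ^ 6 +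
        (24807126973653367/6787700156250) * a ^ 2 * b * q ^ 6 +
        (107562838942483469/2715080062500) * a ^ 2 * b * p * q ^ 5 +
        (176097490758328021/1086032025000) * a ^ 2 * b * p ^ 2 * q ^ 4 +
        (16520675052389371/54301601250) * a ^ 2 * b * p ^ 3 * q ^ 3 +
        (12350435044960/43441281) * a ^ 2 * b * p ^ 4 * q ^ 2 +
        (6127784931200/43441281) * a ^ 2 * b * p ^ 5 * q +
        (1112574080000/43441281) * a ^ 2 * b * p ^ 6 +
        (569641841736302839/434412810000000) * a ^ 3 * q ^ 6 +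
        (937283320266968593/65161921500000) * a ^ 3 * p * q ^ 5 +
        (95856374021758847/1629048037500) * a ^ 3 * p ^ 2 * q ^ 4 +
        (8921425921259002/81452401875) * a ^ 3 * p ^ 3 * q ^ 3 +
        (487885926560/4826809) * a ^ 3 * p ^ 4 * q ^ 2 +
        (722964905600/14480427) * a ^ 3 * p ^ 5 * q +
        (1168618240000/130323843) * a ^ 3 * p ^ 6 := by
    intro a b p q ha hb hp hq
    subst ha hb hp hq
    unfold PP
    ring
  have ha : 0 ≤ R - 8/5 := by linarith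
  have hb : 0 ≤ 19/10 - R := by linarith
  have hp : 0 ≤ w - 7/20 := by linarith
  have hq : 0 ≤ 1 - w := by linarith
  obtain ⟨a, ea⟩ : ∃ a, a = R - 8/5 := ⟨_, rfl⟩
  obtain ⟨b, eb⟩ : ∃ b, b = 19/10 - R := ⟨_, rfl⟩
  obtain ⟨p, ep⟩ : ∃ p, p = w - 7/20 := ⟨_, rfl⟩
  obtain ⟨q, eq⟩ : ∃ q, q = 1 - w := ⟨_, rfl⟩
  rw [key a b p q ea eb ep eq]
  rw [← ea] at ha
  rw [← eb] at hb
  rw [← ep] at hp
  rw [← eq] at hq
  positivity

set_option maxRecDepth 8000 in
theorem bx9_1 {R w : ℝ} (h1 : 19/10 ≤ R) (h2 : R ≤ 9/4) (h3 : 0 ≤ w) (h4 : w ≤ 1/5) :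
    0 ≤ PP (1521/10000) (1963/1000) R w := by
  have key : ∀ a b p q : ℝ, a = R - 19/10 → b = 9/4 - R → p = w - 0 → q = 1/5 - w →
      PP (1521/10000) (1963/1000) R w =
        (211975000/343) * b ^ 3 * q ^ 6 +
        (17247501991/6860) * b ^ 3 * p * q ^ 5 +
        (68029801901/17150) * b ^ 3 * p ^ 2 * q ^ 4 +
        (741071011343/214375) * b ^ 3 * p ^ 3 * q ^ 3 +
        (2385079852676/1071875) * b ^ 3 * p ^ 4 * q ^ 2 +
        (6024649210484/5359375) * b ^ 3 * p ^ 5 * q +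
        (7573627606912/26796875) * b ^ 3 * p ^ 6 +
        (635925000/343) * a * b ^ 2 * q ^ 6 +
        (12409565624/1715) * a * b ^ 2 * p * q ^ 5 +
        (90391511228/8575) * a * b ^ 2 * p ^ 2 * q ^ 4 +
        (2813106249537/343000) * a * b ^ 2 * p ^ 3 * q ^ 3 +
        (440493000711/85750) * a * b ^ 2 * p ^ 4 * q ^ 2 +
        (3133324115646/1071875) * a * b ^ 2 * p ^ 5 * q +
        (4387991982548/5359375) * a * b ^ 2 * p ^ 6 +
        (635925000/343) * a ^ 2 * b * q ^ 6 +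
        (37939434959/5488) * a ^ 2 * b * p * q ^ 5 +
        (125015728549/13720) * a ^ 2 * b * p ^ 2 * q ^ 4 +
        (407914286089/68600) * a ^ 2 * b * p ^ 3 * q ^ 3 +
        (307123728311/85750) * a ^ 2 * b * p ^ 4 * q ^ 2 +
        (536149697683/214375) * a ^ 2 * b * p ^ 5 * q +
        (859098545764/1071875) * a ^ 2 * b * p ^ 6 +
        (211975000/343) * a ^ 3 * q ^ 6 +
        (12026826555/5488) * a ^ 3 * p * q ^ 5 +
        (6962630421/2744) * a ^ 3 * p ^ 2 * q ^ 4 +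
        (66064530113/54880) * a ^ 3 * p ^ 3 * q ^ 3 +
        (46297459443/68600) * a ^ 3 * p ^ 4 * q ^ 2 +
        (60536103981/85750) * a ^ 3 * p ^ 5 * q +
        (57120895234/214375) * a ^ 3 * p ^ 6 := by
    intro a b p q ha hb hp hq
    subst ha hb hp hq
    unfold PP
    ring
  have ha : 0 ≤ R - 19/10 := by linarith
  have hb : 0 ≤ 9/4 - R := by linarith
  have hp : 0 ≤ w - 0 := by linarith
  have hq : 0 ≤ 1/5 - w := by linarith
  obtain ⟨a, ea⟩ : ∃ a, a = R - 19/10 := ⟨_, rfl⟩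
  obtain ⟨b, eb⟩ : ∃ b, b = 9/4 - R := ⟨_, rfl⟩
  obtain ⟨p, ep⟩ : ∃ p, p = w - 0 := ⟨_, rfl⟩
  obtain ⟨q, eq⟩ : ∃ q, q = 1/5 - w := ⟨_, rfl⟩
  rw [key a b p q ea eb ep eq]
  rw [← ea] at ha
  rw [← eb] at hb
  rw [← ep] at hp
  rw [← eq] at hq
  positivity

set_option maxRecDepth 8000 in
theorem bx9_2 {R w : ℝ} (h1 : 19/10 ≤ R) (h2 : R ≤ 9/4) (h3 : 1/5 ≤ w) (h4 : w ≤ 1) :
    0 ≤ PP (1521/10000) (1963/1000) R w := by
  have key : ∀ a b p q : ℝ, a = R - 19/10 → b = 9/4 - R → p = w - 1/5 → q = 1 - w →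
      PP (1521/10000) (1963/1000) R w =
        (59168965679/857500000) * b ^ 3 * q ^ 6 +
        (1333948049971/1372000000) * b ^ 3 * p * q ^ 5 +
        (1954544221051/274400000) * b ^ 3 * p ^ 2 * q ^ 4 +
        (490723423881/27440000) * b ^ 3 * p ^ 3 * q ^ 3 +
        (709887645/43904) * b ^ 3 * p ^ 4 * q ^ 2 +
        (774004275/87808) * b ^ 3 * p ^ 5 * q +
        (141029375/87808) * b ^ 3 * p ^ 6 +
        (1096997995637/5488000000) * a * b ^ 2 * q ^ 6 +
        (3367835799/1071875) * a * b ^ 2 * p * q ^ 5 +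
        (1038655872687/43904000) * a * b ^ 2 * p ^ 2 * q ^ 4 +
        (1300113142823/21952000) * a * b ^ 2 * p ^ 3 * q ^ 3 +
        (18309121685/351232) * a * b ^ 2 * p ^ 4 * q ^ 2 +
        (4971456425/175616) * a * b ^ 2 * p ^ 5 * q +
        (1786506875/351232) * a * b ^ 2 * p ^ 6 +
        (214774636441/1097600000) * a ^ 2 * b * q ^ 6 +
        (752498120963/219520000) * a ^ 2 * b * p * q ^ 5 +
        (577559257411/21952000) * a ^ 2 * b * p ^ 2 * q ^ 4 +
        (5751570063/87808) * a ^ 2 * b * p ^ 3 * q ^ 3 +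
        (19649484275/351232) * a ^ 2 * b * p ^ 4 * q ^ 2 +
        (10624137625/351232) * a ^ 2 * b * p ^ 5 * q +
        (940330625/175616) * a ^ 2 * b * p ^ 6 +
        (28560447617/439040000) * a ^ 3 * q ^ 6 +
        (110826581721/87808000) * a ^ 3 * p * q ^ 5 +
        (172023653793/17561600) * a ^ 3 * p ^ 2 * q ^ 4 +
        (84973220189/3512320) * a ^ 3 * p ^ 3 * q ^ 3 +
        (3509731875/175616) * a ^ 3 * p ^ 4 * q ^ 2 +
        (3777241875/351232) * a ^ 3 * p ^ 5 * q +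
        (658271875/351232) * a ^ 3 * p ^ 6 := by
    intro a b p q ha hb hp hq
    subst ha hb hp hq
    unfold PP
    ring
  have ha : 0 ≤ R - 19/10 := by linarith
  have hb : 0 ≤ 9/4 - R := by linarith
  have hp : 0 ≤ w - 1/5 := by linarith
  have hq : 0 ≤ 1 - w := by linarith
  obtain ⟨a, ea⟩ : ∃ a, a = R - 19/10 := ⟨_, rfl⟩
  obtain ⟨b, eb⟩ : ∃ b, b = 9/4 - R := ⟨_, rfl⟩
  obtain ⟨p, ep⟩ : ∃ p, p = w - 1/5 := ⟨_, rfl⟩
  obtain ⟨q, eq⟩ : ∃ q, q = 1 - w := ⟨_, rfl⟩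
  rw [key a b p q ea eb ep eq]
  rw [← ea] at ha
  rw [← eb] at hb
  rw [← ep] at hp
  rw [← eq] at hq
  positivity

theorem bx1 {r x : ℝ} (hr : 0 < r) (h1 : 39/100 ≤ r ^ 2) (h2 : r ^ 2 ≤ 9/20)
    (hx0 : 0 ≤ x) (hx : x ≤ 2 * r) : 0 ≤ YY r (6889/10000) x := by
  refine core (T := 9/20) (γ := 201/250) hr hx0 hx h2 (by norm_num) (by norm_num) (by norm_num)
    (by norm_num) ?_
  intro w hw0 hw1
  rcases le_total w (7/20) with h | h
  · exact bx1_1 h1 h2 (by linarith) h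
  · exact bx1_2 h1 h2 h (by linarith)

theorem bx2 {r x : ℝ} (hr : 0 < r) (h1 : 9/20 ≤ r ^ 2) (h2 : r ^ 2 ≤ 53/100)
    (hx0 : 0 ≤ x) (hx : x ≤ 2 * r) : 0 ≤ YY r (16/25) x := by
  refine core (T := 53/100) (γ := 833/1000) hr hx0 hx h2 (by norm_num) (by norm_num) (by norm_num)
    (by norm_num) ?_
  intro w hw0 hw1
  rcases le_total w (7/20) with h | h
  · exact bx2_1 h1 h2 (by linarith) h
  · exact bx2_2 h1 h2 h (by linarith)

theorem bx3 {r x : ℝ} (hr : 0 < r) (h1 : 53/100 ≤ r ^ 2) (h2 : r ^ 2 ≤ 63/100)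
    (hx0 : 0 ≤ x) (hx : x ≤ 2 * r) : 0 ≤ YY r (5929/10000) x := by
  refine core (T := 63/100) (γ := 87/100) hr hx0 hx h2 (by norm_num) (by norm_num) (by norm_num)
    (by norm_num) ?_
  intro w hw0 hw1
  rcases le_total w (7/20) with h | h
  · exact bx3_1 h1 h2 (by linarith) h
  · exact bx3_2 h1 h2 h (by linarith)

theorem bx4 {r x : ℝ} (hr : 0 < r) (h1 : 63/100 ≤ r ^ 2) (h2 : r ^ 2 ≤ 77/100)
    (hx0 : 0 ≤ x) (hx : x ≤ 2 * r) : 0 ≤ YY r (5329/10000) x := by
  refine core (T := 77/100) (γ := 927/1000) hr hx0 hx h2 (by norm_num) (by norm_num) (by norm_num)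
    (by norm_num) ?_
  intro w hw0 hw1
  rcases le_total w (7/20) with h | h
  · exact bx4_1 h1 h2 (by linarith) h
  · exact bx4_2 h1 h2 h (by linarith)

theorem bx5 {r x : ℝ} (hr : 0 < r) (h1 : 77/100 ≤ r ^ 2) (h2 : r ^ 2 ≤ 24/25)
    (hx0 : 0 ≤ x) (hx : x ≤ 2 * r) : 0 ≤ YY r (289/625) x := by
  refine core (T := 24/25) (γ := 1011/1000) hr hx0 hx h2 (by norm_num) (by norm_num) (by norm_num)
    (by norm_num) ?_
  intro w hw0 hw1
  rcases le_total w (3/10) with h | h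
  · exact bx5_1 h1 h2 (by linarith) h
  · exact bx5_2 h1 h2 h (by linarith)

theorem bx6 {r x : ℝ} (hr : 0 < r) (h1 : 24/25 ≤ r ^ 2) (h2 : r ^ 2 ≤ 61/50)
    (hx0 : 0 ≤ x) (hx : x ≤ 2 * r) : 0 ≤ YY r (3721/10000) x := by
  refine core (T := 61/50) (γ := 229/200) hr hx0 hx h2 (by norm_num) (by norm_num) (by norm_num)
    (by norm_num) ?_
  intro w hw0 hw1
  rcases le_total w (3/10) with h | h
  · exact bx6_1 h1 h2 (by linarith) h
  · exact bx6_2 h1 h2 h (by linarith)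

theorem bx7 {r x : ℝ} (hr : 0 < r) (h1 : 61/50 ≤ r ^ 2) (h2 : r ^ 2 ≤ 8/5)
    (hx0 : 0 ≤ x) (hx : x ≤ 2 * r) : 0 ≤ YY r (2809/10000) x := by
  refine core (T := 8/5) (γ := 277/200) hr hx0 hx h2 (by norm_num) (by norm_num) (by norm_num)
    (by norm_num) ?_
  intro w hw0 hw1
  rcases le_total w (1/5) with h | h
  · exact bx7_1 h1 h2 (by linarith) h
  · exact bx7_2 h1 h2 h (by linarith)

theorem bx8 {r x : ℝ} (hr : 0 < r) (h1 : 8/5 ≤ r ^ 2) (h2 : r ^ 2 ≤ 19/10)
    (hx0 : 0 ≤ x) (hx : x ≤ 2 * r) : 0 ≤ YY r (7569/40000) x := by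
  refine core (T := 19/10) (γ := 1637/1000) hr hx0 hx h2 (by norm_num) (by norm_num) (by norm_num)
    (by norm_num) ?_
  intro w hw0 hw1
  rcases le_total w (7/20) with h | h
  · exact bx8_1 h1 h2 (by linarith) h
  · exact bx8_2 h1 h2 h (by linarith)

theorem bx9 {r x : ℝ} (hr : 0 < r) (h1 : 19/10 ≤ r ^ 2) (h2 : r ^ 2 ≤ 9/4)
    (hx0 : 0 ≤ x) (hx : x ≤ 2 * r) : 0 ≤ YY r (1521/10000) x := by
  refine core (T := 9/4) (γ := 1963/1000) hr hx0 hx h2 (by norm_num) (by norm_num) (by norm_num)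
    (by norm_num) ?_
  intro w hw0 hw1
  rcases le_total w (1/5) with h | h
  · exact bx9_1 h1 h2 (by linarith) h
  · exact bx9_2 h1 h2 h (by linarith)

theorem winB : S_winB := by
  intro r R1 R2 l hr h1 h2 hmem x hx0 hx
  simp only [List.mem_cons, Prod.mk.injEq, or_false, List.not_mem_nil] at hmem
  rcases hmem with ⟨rfl, rfl, rfl⟩ | ⟨rfl, rfl, rfl⟩ | ⟨rfl, rfl, rfl⟩ | ⟨rfl, rfl, rfl⟩ |
    ⟨rfl, rfl, rfl⟩ | ⟨rfl, rfl, rfl⟩ | ⟨rfl, rfl, rfl⟩ | ⟨rfl, rfl, rfl⟩ | ⟨rfl, rfl, rfl⟩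
  · have h := bx1 hr (by norm_num at h1 ⊢; linarith) (by norm_num at h2 ⊢; linarith) hx0 hx
    have e : (0.83 : ℝ) ^ 2 = 6889/10000 := by norm_num
    rw [e]
    exact h
  · have h := bx2 hr (by norm_num at h1 ⊢; linarith) (by norm_num at h2 ⊢; linarith) hx0 hx
    have e : (0.80 : ℝ) ^ 2 = 16/25 := by norm_num
    rw [e]
    exact h
  · have h := bx3 hr (by norm_num at h1 ⊢; linarith) (by norm_num at h2 ⊢; linarith) hx0 hx
    have e : (0.77 : ℝ) ^ 2 = 5929/10000 := by norm_num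
    rw [e]
    exact h
  · have h := bx4 hr (by norm_num at h1 ⊢; linarith) (by norm_num at h2 ⊢; linarith) hx0 hx
    have e : (0.73 : ℝ) ^ 2 = 5329/10000 := by norm_num
    rw [e]
    exact h
  · have h := bx5 hr (by norm_num at h1 ⊢; linarith) (by norm_num at h2 ⊢; linarith) hx0 hx
    have e : (0.68 : ℝ) ^ 2 = 289/625 := by norm_num
    rw [e]
    exact h
  · have h := bx6 hr (by norm_num at h1 ⊢; linarith) (by norm_num at h2 ⊢; linarith) hx0 hx
    have e : (0.61 : ℝ) ^ 2 = 3721/10000 := by norm_num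
    rw [e]
    exact h
  · have h := bx7 hr (by norm_num at h1 ⊢; linarith) (by norm_num at h2 ⊢; linarith) hx0 hx
    have e : (0.53 : ℝ) ^ 2 = 2809/10000 := by norm_num
    rw [e]
    exact h
  · have h := bx8 hr (by norm_num at h1 ⊢; linarith) (by norm_num at h2 ⊢; linarith) hx0 hx
    have e : (0.435 : ℝ) ^ 2 = 7569/40000 := by norm_num
    rw [e]
    exact h
  · have h := bx9 hr (by norm_num at h1 ⊢; linarith) (by norm_num at h2 ⊢; linarith) hx0 hx
    have e : (0.39 : ℝ) ^ 2 = 1521/10000 := by norm_num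
    rw [e]
    exact h

end Pool.Agent.H195.TBB
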